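import Pool.Agent.Lib.MP_33b3f9_ag.M8.CP.Defs

/-!
Abstract theta data in characteristic `p` (block B2p). `Vt` is the prime to `p` universal cover,
`W` the `p`-power torsion, `G n` the reduction of the sections of level `4 n`.
-/

set_option autoImplicit false

namespace MG.CP

open Polynomial
open M8.CP (Uop)

/-- Theta data. -/
structure TD (k : Type) [Field k] (p gd : ℕ) (A : Type) [CommRing A] (Vt W ι : Type)
    [AddCommGroup Vt] [Module ℚ Vt] [AddCommGroup W] [Fintype ι] where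
  Lam : AddSubgroup Vt
  eps : Vt → Vt → k
  G : ℕ → Submodule k (Vt × W → k)
  X : ι → Vt × W → k
  sV : Vt ≃+ Vt
  sW : W ≃+ W
  bar : A →+* A
  za : A
  ma : ℕ
  aV : A →+* Module.End ℤ Vt
  aW : A →+* Module.End ℤ W
  g_pos : 0 < gd
  gen : Algebra.adjoin ℤ {za, bar za} = ⊤
  bar_bar : ∀ a, bar (bar a) = a
  bar_mul : bar za * za = ma
  m_cop : ¬ p ∣ ma
  aV_s : ∀ a x, aV a (sV x) = sV (aV a x)
  aW_s : ∀ a y, aW a (sW y) = sW (aW a y)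
  aV_lam : ∀ a, ∀ x ∈ Lam, aV a x ∈ Lam
  eps_a : ∀ a x y, eps (aV a x) y = eps x (aV (bar a) y)
  ends : ∀ a, a = za ∨ a = bar za → ∀ n, ∀ f ∈ G n,
    (fun u : Vt × W => f (aV a u.1, aW a u.2)) ∈ G (n * ma)
  p_odd : p ≠ 2
  lam_tors : ∀ x : Vt, ∃ N : ℕ, ¬ p ∣ N ∧ N • x ∈ Lam
  lam_p : ∀ x : Vt, p • x ∈ Lam → x ∈ Lam
  lam_card : ∀ N : ℕ, ¬ p ∣ N → ∃ r : (Fin (2 * gd) → Fin N) → Vt, (∀ a, N • r a ∈ Lam) ∧
    ∀ a b, r a - r b ∈ Lam → a = b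
  W_div : ∀ y : W, ∃ y' : W, p • y' = y
  W_tors : ∀ y : W, ∃ j : ℕ, p ^ j • y = 0
  eps_add_left : ∀ x y z, eps (x + y) z = eps x z * eps y z
  eps_add_right : ∀ x y z, eps x (y + z) = eps x y * eps x z
  eps_self : ∀ x, eps x x = 1
  perf : ∀ x, (∀ l ∈ Lam, eps x l ^ 2 = 1) → x ∈ Lam
  span : G 1 = Submodule.span k (Set.range X)
  one_mem : (1 : Vt × W → k) ∈ G 0
  mul_mem : ∀ n m f g, f ∈ G n → g ∈ G m → f * g ∈ G (n + m)
  fin : ∀ n, FiniteDimensional k (G n)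
  dim_le : ∀ n, 1 ≤ n → Module.finrank k (G n) ≤ (4 * n) ^ gd
  dim_eq : ∀ n, ¬ p ∣ n → Module.finrank k (G n) = (4 * n) ^ gd
  irr : ∀ n, ¬ p ∣ n → ∀ S : Submodule k (Vt × W → k), S ≤ G n →
    (∀ x : Vt, (4 * n) • x ∈ Lam → ∀ f ∈ S, Uop eps n (x, 0) f ∈ S) → S = ⊥ ∨ S = G n
  tr : ∀ n (u : Vt × W), (4 * n) • u.1 ∈ Lam → (4 * n) • u.2 = 0 → ∀ f ∈ G n, Uop eps n u f ∈ G n
  per : ∀ n, ∀ l ∈ Lam, ∀ f ∈ G n, Uop eps n (l, 0) f = f
  mul : ∀ n (c : ℤ), ∀ f ∈ G n, (fun z => f (c • z)) ∈ G (n * c.natAbs ^ 2)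
  inj : ∀ n, ∀ f ∈ G n, (∀ x : Vt, f (x, 0) = 0) → f = 0
  bpf : ∀ z, ∃ i, X i z ≠ 0
  law : ∀ a b, ∃ c : ι → ι → ι → ι → k, ∀ z z', X a (z + z') * X b (z - z') =
    ∑ i, ∑ j, ∑ l, ∑ m, c i j l m * (X i z * X j z) * (X l z' * X m z')
  dup : ∀ a, ∃ c : ι → k, ∀ z, X a z ^ 4 = ∑ b, c b * X b (z + z)
  sV_lam : ∀ x, sV x ∈ Lam ↔ x ∈ Lam
  eps_s : ∀ x y, eps (sV x) (sV y) = eps x y ^ p
  fr : ∀ i (z : Vt × W), X i (sV z.1, sW z.2) = X i z ^ p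

namespace TD

variable {k : Type} [Field k] {p gd : ℕ} {A : Type} [CommRing A] {Vt W ι : Type}
  [AddCommGroup Vt] [Module ℚ Vt] [AddCommGroup W] [Fintype ι] (D : TD k p gd A Vt W ι)

/-- a polynomial in the Frobenius, on `Vt` -/
noncomputable def polV : A[X] →+* Module.End ℤ Vt :=
  eval₂RingHom' D.aV (D.sV.toAddMonoidHom.toIntLinearMap : Module.End ℤ Vt)
    fun a => LinearMap.ext fun x => D.aV_s a x

/-- a polynomial in the Frobenius, on `W` -/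
noncomputable def polW : A[X] →+* Module.End ℤ W :=
  eval₂RingHom' D.aW (D.sW.toAddMonoidHom.toIntLinearMap : Module.End ℤ W)
    fun a => LinearMap.ext fun y => D.aW_s a y

/-- the kernel of the reduction on `W` -/
def C : AddSubgroup W where
  carrier := {y | ∀ n, ∀ f ∈ D.G n, ∀ z : Vt × W, f (z + (0, y)) = f z}
  zero_mem' := fun n f _ z => by simp [← Prod.zero_eq_mk]
  add_mem' := fun {a b} ha hb n f hf z => by
    have h : z + ((0 : Vt), a + b) = z + (0, a) + (0, b) := by simp [add_assoc]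
    rw [h, hb n f hf, ha n f hf]
  neg_mem' := fun {a} ha n f hf z => by
    have h : z = z + ((0 : Vt), -a) + (0, a) := by simp [add_assoc, ← Prod.zero_eq_mk]
    rw [← ha n f hf (z + (0, -a)), ← h]

end TD

end MG.CP
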