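import Pool.Agent.Lib.MP_33b3f9_ag.MG.CP.Every2
import Pool.Agent.Lib.MP_33b3f9_ag.MG.CP.Ht2

/-!
The outputs of the block.
-/

set_option autoImplicit false
set_option linter.unusedSectionVars false

namespace MG.CP

open Polynomial Filter
open M8.CP (Uop)

namespace TD

variable {k : Type} [Field k] [IsAlgClosed k] {p : ℕ} [Fact p.Prime] [CharP k p] {gd : ℕ}
  {A : Type} [CommRing A] {Vt W ι : Type} [AddCommGroup Vt] [Module ℚ Vt] [AddCommGroup W]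
  [Fintype ι] (D : TD k p gd A Vt W ι)

theorem out_sep {z u : Vt × W} {c : k} (h : ∀ i, D.X i (z + u) = c * D.X i z) :
    u.1 ∈ D.Lam ∧ u.2 ∈ D.C := D.sep h

theorem out_weil (hs : ∀ x : Vt, (∀ c : ℚ, c • x ∈ D.Lam) → x = 0) : ∃ h : A[X] → ℕ,
    (∀ a b, h (a + b) + h (a - b) = 2 * h a + 2 * h b) ∧
    (∀ a, h (Polynomial.X * a) = p * h a) ∧ (∀ a, h a = 0 ↔ D.polV a = 0) ∧
    (∀ (N : ℕ) (a : A[X]), ¬ p ∣ N → (∀ x ∈ D.Lam, ∃ y ∈ D.Lam, D.polV a x = N • y) →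
      N ^ 2 ∣ h a) := by
  obtain ⟨h, h1, h2, h3, h4⟩ := D.exists_ht
  refine ⟨h, h1, h2, fun a => (h3 a).trans ⟨fun H => ?_, fun H x => ?_⟩, fun N a hN H => ?_⟩
  · refine LinearMap.ext fun x => hs _ fun c => ?_
    rw [← D.polV_qsmul]; exact H _
  · rw [H]; exact D.Lam.zero_mem
  · refine h4 N a hN fun x hx => ?_
    obtain ⟨y, hy, e⟩ := H _ hx
    have h0 : (N : ℚ) ≠ 0 := by
      rintro h0
      exact hN (by rw [Nat.cast_eq_zero.1 h0]; exact dvd_zero _)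
    rw [map_nsmul, ← Nat.cast_smul_eq_nsmul ℚ, ← Nat.cast_smul_eq_nsmul ℚ] at e
    rw [smul_right_injective Vt h0 e]; exact hy

theorem out_main (hs : ∀ x : Vt, (∀ c : ℚ, c • x ∈ D.Lam) → x = 0) (δ : A[X]) (N c d : ℕ)
    (hN : δ.natDegree ≤ N) (hc : ¬ p ∣ c) (hd : d ≡ c ^ 2 [MOD p ^ N])
    (sim : ∀ x y, D.eps (D.polV (Polynomial.C (c : A) + Polynomial.C ((p : A) ^ N) * δ) x)
      (D.polV (Polynomial.C (c : A) + Polynomial.C ((p : A) ^ N) * δ) y) = D.eps x y ^ d)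
    (h1 : 1 ≤ N) :
    ∃ t : ℕ, ¬ p ∣ t ∧ ∀ n, ¬ p ∣ n → ∀ f ∈ D.G n, ∃ f' ∈ D.G (n * d * t ^ 2), ∀ x : Vt,
      f' (x, 0) = f (D.polV (Polynomial.C (c : A) + Polynomial.C ((p : A) ^ N) * δ) (t • x), 0) := by
  have e : Polynomial.C (c : A) + Polynomial.C ((p : A) ^ N) * δ = c • 1 + p ^ N • δ := by
    rw [map_pow, map_natCast, map_natCast, nsmul_eq_mul, nsmul_eq_mul, mul_one, Nat.cast_pow]
  rw [e] at sim ⊢
  have h2 : ¬ p ∣ d := fun h => hc ((Fact.out : p.Prime).dvd_of_dvd_pow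
    (((hd.of_dvd (dvd_pow_self p (by omega))).dvd_iff dvd_rfl).1 h))
  obtain ⟨t, ht⟩ := (D.hyp_of hs δ N c d hN h2 hd sim).main
  refine ⟨2 ^ t, D.not_dvd_two_pow t, fun n hn f hf => ?_⟩
  rw [← pow_mul, mul_comm t 2, pow_mul]
  exact ht n hn f hf

end TD

end MG.CP
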