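import Pool.Agent.Lib.MP_33b3f9_ag.MG.CP.Germ

/-!
Points with values in the function field.
-/

set_option autoImplicit false
set_option linter.unusedSectionVars false

namespace MG.CP

open Polynomial Filter
open M8.CP (Uop)

namespace TD

variable {k : Type} [Field k] [IsAlgClosed k] {p : ℕ} [Fact p.Prime] [CharP k p] {gd : ℕ}
  {A : Type} [CommRing A] {Vt W ι : Type} [AddCommGroup Vt] [Module ℚ Vt] [AddCommGroup W]
  [Fintype ι] (D : TD k p gd A Vt W ι)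

/-- all coordinates of `a` lie in one line over the function field -/
def InA (a : Vt × W → Vt × W) : Prop :=
  ∃ s : D.FF, IsUnit s ∧ ∀ i, ∃ c : D.KK, D.gm (D.X i ∘ a) = D.val c * s

/-- dominant points -/
def Good (a : Vt × W → Vt × W) : Prop := D.IsDom a ∧ D.InA a

/-- translation -/
def trl (u : Vt × W) : Vt × W → Vt × W := fun z => z + u

/-- multiplication by a natural number -/
def nm (c : ℕ) : Vt × W → Vt × W := fun z => c • z

variable {D}

theorem aa_ne {c : D.KK} {s : D.FF} (h : D.val c * s ≠ 0) : c ≠ 0 := by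
  rintro rfl
  exact h (by rw [map_zero, zero_mul])

theorem aa_div {c c' : D.KK} (h : c' ≠ 0) {s : D.FF} :
    D.val (c / c') * (D.val c' * s) = D.val c * s := by
  rw [← mul_assoc, ← map_mul, div_mul_cancel₀ _ h]

/-- `law` pointwise at `(a z, b z)`, apply `gm` (`map_sum`, `map_mul`). -/
theorem law_gm (A : Subalgebra k D.KK) {a b : Vt × W → Vt × W} {s s' : D.FF}
    (ha : ∀ i, ∃ c ∈ A, D.gm (D.X i ∘ a) = D.val c * s)
    (hb : ∀ i, ∃ c ∈ A, D.gm (D.X i ∘ b) = D.val c * s') (i j : ι) :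
    ∃ e ∈ A, D.gm (D.X i ∘ (a + b)) * D.gm (D.X j ∘ (a - b)) = D.val e * (s ^ 2 * s' ^ 2) := by
  choose c hc hca using ha
  choose c' hc' hcb using hb
  obtain ⟨e, he⟩ := D.law i j
  have h1 : (D.X i ∘ (a + b)) * (D.X j ∘ (a - b)) = ∑ i1, ∑ j1, ∑ l, ∑ m, e i1 j1 l m •
      (((D.X i1 ∘ a) * (D.X j1 ∘ a)) * ((D.X l ∘ b) * (D.X m ∘ b))) := by
    funext z
    simp only [Finset.sum_apply, Pi.smul_apply, Pi.mul_apply, Function.comp_apply, Pi.add_apply,
      Pi.sub_apply, smul_eq_mul, he, mul_assoc]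
  refine ⟨∑ i1, ∑ j1, ∑ l, ∑ m, e i1 j1 l m • ((c i1 * c j1) * (c' l * c' m)),
    A.sum_mem fun _ _ => A.sum_mem fun _ _ => A.sum_mem fun _ _ => A.sum_mem fun _ _ =>
      A.smul_mem (A.mul_mem (A.mul_mem (hc _) (hc _)) (A.mul_mem (hc' _) (hc' _))) _, ?_⟩
  rw [← map_mul, h1]
  simp only [map_sum, map_smul, map_mul, Finset.sum_mul, smul_mul_assoc, hca, hcb]
  refine Finset.sum_congr rfl fun _ _ => Finset.sum_congr rfl fun _ _ =>
    Finset.sum_congr rfl fun _ _ => Finset.sum_congr rfl fun _ _ => ?_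
  congr 1
  ring

theorem dup_gm (A : Subalgebra k D.KK) {a : Vt × W → Vt × W} {s : D.FF}
    (ha : ∀ i, ∃ c ∈ A, D.gm (D.X i ∘ (a + a)) = D.val c * s) (i : ι) :
    ∃ e ∈ A, D.gm (D.X i ∘ a) ^ 4 = D.val e * s := by
  choose c hc hca using ha
  obtain ⟨e, he⟩ := D.dup i
  have h1 : (D.X i ∘ a) ^ 4 = ∑ j, e j • (D.X j ∘ (a + a)) := by
    funext z
    simp only [Finset.sum_apply, Pi.smul_apply, Pi.pow_apply, Function.comp_apply, Pi.add_apply,
      smul_eq_mul, he]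
  refine ⟨∑ j, e j • c j, A.sum_mem fun _ _ => A.smul_mem (hc _) _, ?_⟩
  rw [← map_pow, h1]
  simp only [map_sum, map_smul, Finset.sum_mul, smul_mul_assoc, hca]

/-- `bpf`: if all products were zero germs, all would vanish at one point. -/
theorem exists_ne (a b : Vt × W → Vt × W) :
    ∃ i j, D.gm (D.X i ∘ a) * D.gm (D.X j ∘ b) ≠ 0 := by
  by_contra hc
  push Not at hc
  have h1 : ∀ᶠ z in D.ae, ∀ i j, ((D.X i ∘ a) * (D.X j ∘ b)) z = 0 :=
    eventually_all.2 fun i => eventually_all.2 fun j =>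
      D.gm_eq_zero.1 (by rw [map_mul, hc i j])
  obtain ⟨z, hz⟩ := h1.exists
  obtain ⟨i, hi⟩ := D.bpf (a z)
  obtain ⟨j, hj⟩ := D.bpf (b z)
  exact mul_ne_zero hi hj (hz i j)

theorem InA.exists_unit {a : Vt × W → Vt × W} (h : D.InA a) : ∃ i, IsUnit (D.gm (D.X i ∘ a)) := by
  obtain ⟨s, hs, h⟩ := h
  obtain ⟨i, j, hij⟩ := exists_ne (D := D) a a
  obtain ⟨c, hc⟩ := h i
  refine ⟨i, ?_⟩
  rw [hc] at hij ⊢
  exact (D.isUnit_val (aa_ne (left_ne_zero_of_mul hij))).mul hs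

/-- with respect to any unit coordinate -/
theorem InA.ratio {a : Vt × W → Vt × W} (h : D.InA a) {j : ι} (hj : IsUnit (D.gm (D.X j ∘ a)))
    (i : ι) : ∃ c : D.KK, D.gm (D.X i ∘ a) = D.val c * D.gm (D.X j ∘ a) := by
  obtain ⟨s, -, h⟩ := h
  obtain ⟨c, hc⟩ := h i
  obtain ⟨c', hc'⟩ := h j
  rw [hc'] at hj
  exact ⟨c / c', by rw [hc, hc', aa_div (aa_ne hj.ne_zero)]⟩

/-- `law_gm ⊤`, `exists_ne (a + b) (a - b)`: that product is `val e * unit` with `e ≠ 0`, a unit, so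
both factors are units. -/
theorem InA.add_sub {a b : Vt × W → Vt × W} (ha : D.InA a) (hb : D.InA b) :
    D.InA (a + b) ∧ D.InA (a - b) := by
  obtain ⟨s, hs, ha⟩ := ha
  obtain ⟨s', hs', hb⟩ := hb
  choose e _ he using law_gm (D := D) ⊤ (a := a) (b := b) (s := s) (s' := s')
    (fun i => (ha i).imp fun _ h => ⟨Algebra.mem_top, h⟩)
    (fun i => (hb i).imp fun _ h => ⟨Algebra.mem_top, h⟩)
  obtain ⟨i0, j0, h0⟩ := exists_ne (D := D) (a + b) (a - b)
  have he0 : e i0 j0 ≠ 0 := aa_ne (he i0 j0 ▸ h0)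
  have hu : IsUnit (D.gm (D.X i0 ∘ (a + b)) * D.gm (D.X j0 ∘ (a - b))) := by
    rw [he]
    exact (D.isUnit_val he0).mul ((hs.pow 2).mul (hs'.pow 2))
  have hu1 := isUnit_of_mul_isUnit_left hu
  have hu2 := isUnit_of_mul_isUnit_right hu
  refine ⟨⟨_, hu1, fun i => ⟨e i j0 / e i0 j0, hu2.mul_right_cancel ?_⟩⟩,
    ⟨_, hu2, fun j => ⟨e i0 j / e i0 j0, hu1.mul_left_cancel ?_⟩⟩⟩
  · rw [mul_assoc, he, he, aa_div he0]
  · rw [mul_left_comm, he, he, aa_div he0]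

theorem aa_line (A : Subalgebra k D.KK) {a : Vt × W → Vt × W} {s : D.FF}
    (ha : ∀ i, ∃ c ∈ A, D.gm (D.X i ∘ a) = D.val c * s) {m : ℕ} {f : Vt × W → k}
    (hf : f ∈ D.G 1 ^ m) : ∃ c ∈ A, D.gm (f ∘ a) = D.val c * s ^ m := by
  have h1 : ∀ g ∈ D.G 1, ∃ c ∈ A, D.gm (cmp a g) = D.val c * s := fun g hg => by
    rw [D.span] at hg
    induction hg using Submodule.span_induction with
    | mem g hg =>
      obtain ⟨i, rfl⟩ := hg
      exact ha i
    | zero => exact ⟨0, A.zero_mem, by simp⟩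
    | add u v _ _ hu hv =>
      obtain ⟨c, hc, hu⟩ := hu
      obtain ⟨c', hc', hv⟩ := hv
      exact ⟨c + c', A.add_mem hc hc', by rw [map_add, map_add, hu, hv, map_add, add_mul]⟩
    | smul r u _ hu =>
      obtain ⟨c, hc, hu⟩ := hu
      exact ⟨r • c, A.smul_mem hc r, by rw [map_smul, map_smul, hu, map_smul, smul_mul_assoc]⟩
  change ∃ c ∈ A, D.gm (cmp a f) = D.val c * s ^ m
  induction hf using Submodule.pow_induction_on_left' with
  | algebraMap r =>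
    exact ⟨algebraMap k _ r, A.algebraMap_mem r, by
      rw [pow_zero, mul_one, AlgHom.commutes, AlgHom.commutes, AlgHom.commutes]⟩
  | add u v n _ _ hu hv =>
    obtain ⟨c, hc, hu⟩ := hu
    obtain ⟨c', hc', hv⟩ := hv
    exact ⟨c + c', A.add_mem hc hc', by rw [map_add, map_add, hu, hv, map_add, add_mul]⟩
  | mem_mul g hg n u _ hu =>
    obtain ⟨c, hc, hu⟩ := hu
    obtain ⟨c', hc', hg⟩ := h1 g hg
    exact ⟨c' * c, A.mul_mem hc' hc, by
      rw [map_mul, map_mul, hu, hg, map_mul, pow_succ]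
      ring⟩

/-- First on `G 1 ^ m` (induction), then multiply `f` by `X i ^ (2 ^ r - n)` with `X i ∘ a` a unit. -/
theorem line (A : IntermediateField k D.KK) {a : Vt × W → Vt × W} {s : D.FF} (hs : IsUnit s)
    (ha : ∀ i, ∃ c ∈ A, D.gm (D.X i ∘ a) = D.val c * s) {n : ℕ} {f : Vt × W → k}
    (hf : f ∈ D.G n) : ∃ c ∈ A, D.gm (f ∘ a) = D.val c * s ^ n := by
  obtain ⟨i, j, hij⟩ := exists_ne (D := D) a a
  obtain ⟨c, hcA, hc⟩ := ha i
  have hc0 : c ≠ 0 := aa_ne (hc ▸ left_ne_zero_of_mul hij)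
  obtain ⟨d, hd⟩ := Nat.exists_eq_add_of_le (Nat.lt_two_pow_self (n := n)).le
  have h1 : f * D.X i ^ d ∈ D.G 1 ^ 2 ^ n := by
    have h2 := D.mul_mem _ _ _ _ hf (D.pow_mem (D.X_mem i) d)
    rwa [one_mul, ← hd, ← D.G_pow2] at h2
  obtain ⟨e, heA, he⟩ := aa_line A.toSubalgebra ha h1
  have h3 : (f * D.X i ^ d) ∘ a = (f ∘ a) * (D.X i ∘ a) ^ d := rfl
  rw [h3, map_mul, map_pow, hc, hd] at he
  refine ⟨e / c ^ d, A.div_mem heA (A.toSubalgebra.pow_mem hcA d),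
    (((D.isUnit_val hc0).mul hs).pow d).mul_right_cancel ?_⟩
  rw [he, ← aa_div (c := e) (pow_ne_zero d hc0), map_pow]
  ring

theorem InA.congr {a b : Vt × W → Vt × W} (ha : D.InA a) (h : ∀ i z, D.X i (b z) = D.X i (a z)) :
    D.InA b := by
  obtain ⟨s, hs, ha⟩ := ha
  refine ⟨s, hs, fun i => ?_⟩
  have h1 : D.X i ∘ b = D.X i ∘ a := funext (h i)
  rw [h1]
  exact ha i

theorem InA.sg {a : Vt × W → Vt × W} (ha : D.InA a) : D.InA (D.sg ∘ a) := by
  obtain ⟨s, hs, ha⟩ := ha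
  refine ⟨s ^ p, hs.pow p, fun i => ?_⟩
  obtain ⟨c, hc⟩ := ha i
  have h1 : D.X i ∘ (D.sg ∘ a) = (D.X i ∘ a) ^ p := funext fun z => D.X_sg i (a z)
  exact ⟨c ^ p, by rw [h1, map_pow, map_pow, hc, mul_pow]⟩

/-- `c = f / g`, `line ⊤`; `g ∘ a` is a unit germ. -/
theorem Good.pull_mem {a : Vt × W → Vt × W} (h : D.Good a) (c : D.KK) :
    D.pull a (D.val c) ∈ D.Ksub := by
  obtain ⟨hd, s, hs, ha⟩ := h
  obtain ⟨n, f, hf, g, hg, hg0, hc⟩ := D.KK_frac c
  have ha' : ∀ i, ∃ c ∈ (⊤ : IntermediateField k D.KK), D.gm (D.X i ∘ a) = D.val c * s :=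
    fun i => (ha i).imp fun _ h => ⟨IntermediateField.mem_top, h⟩
  obtain ⟨cf, -, hcf⟩ := line ⊤ hs ha' hf
  obtain ⟨cg, -, hcg⟩ := line ⊤ hs ha' hg
  have hu := isDom_iff.1 hd n g hg hg0
  have h1 := congrArg (D.pull a) hc
  rw [map_mul, pull_gm hd, pull_gm hd] at h1
  have h2 : D.pull a (D.val c) = D.val (cf / cg) := hu.mul_right_cancel (by
    rw [h1, hcf, hcg, aa_div (aa_ne (hcg ▸ hu.ne_zero))])
  rw [h2]
  exact (cf / cg).2

variable (D)

theorem inA_const (u : Vt × W) : D.InA fun _ => u := by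
  refine ⟨1, isUnit_one, fun i => ⟨algebraMap k _ (D.X i u), ?_⟩⟩
  rw [mul_one, AlgHom.commutes]
  exact D.gm.commutes (D.X i u)

theorem inA_id : D.InA id := by
  refine ⟨_, D.isUnit_X0, fun i => ?_⟩
  obtain ⟨c, hc⟩ := D.exists_ratio (D.X_mem i) D.X0_mem D.X0_ne
  exact ⟨c, hc.symm⟩

/-- the group of points -/
def AA : AddSubgroup (Vt × W → Vt × W) where
  carrier := {a | D.InA a}
  zero_mem' := D.inA_const 0
  add_mem' := fun ha hb => (InA.add_sub ha hb).1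
  neg_mem' := fun {a} ha => by
    have h := (InA.add_sub (a := 0) (D.inA_const 0) ha).2
    rw [zero_sub] at h
    exact h

theorem mem_AA {a : Vt × W → Vt × W} : a ∈ D.AA ↔ D.InA a := Iff.rfl

variable {D}

theorem InA.gen {a : A} (ha : a = D.za ∨ a = D.bar D.za) {b : Vt × W → Vt × W} (hb : D.InA b) :
    D.InA (D.pol (Polynomial.C a) ∘ b) := by
  obtain ⟨s, hs, hb⟩ := hb
  refine ⟨s ^ D.ma, hs.pow _, fun i => ?_⟩
  have h1 := D.pol_end ha (D.X_mem i)
  rw [one_mul] at h1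
  obtain ⟨c, -, hc⟩ := line ⊤ hs
    (fun i => (hb i).imp fun _ h => ⟨IntermediateField.mem_top, h⟩) h1
  exact ⟨c, hc⟩

theorem InA.const_mul (a : A) {b : Vt × W → Vt × W} (hb : D.InA b) :
    D.InA (D.pol (Polynomial.C a) ∘ b) := by
  have hc : a ∈ Algebra.adjoin ℤ {D.za, D.bar D.za} := D.gen ▸ Algebra.mem_top
  induction hc using Algebra.adjoin_induction generalizing b with
  | mem c hc => exact hb.gen hc
  | algebraMap n =>
    rw [eq_intCast, map_intCast, ← zsmul_one, D.pol_zsmul, D.pol_one]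
    exact D.AA.zsmul_mem (x := b) hb n
  | add c c' _ _ h h' =>
    rw [map_add, D.pol_add]
    exact ((h hb).add_sub (h' hb)).1
  | mul c c' _ _ h h' =>
    rw [map_mul, D.pol_mul]
    exact h (h' hb)

variable (D)

/-- `Polynomial.induction_on'`; `pol (monomial n c) = pol (C c) ∘ sg^[n]`. -/
theorem inA_pol (a : A[X]) : D.InA (D.pol a) := by
  have h1 : ∀ n : ℕ, D.InA D.sg^[n] := fun n => by
    induction n with
    | zero => exact D.inA_id
    | succ n ih =>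
      rw [Function.iterate_succ']
      exact ih.sg
  induction a using Polynomial.induction_on' with
  | add a b ha hb =>
    rw [D.pol_add]
    exact (ha.add_sub hb).1
  | monomial n c =>
    rw [← C_mul_X_pow_eq_monomial, D.pol_mul, D.pol_X_pow]
    exact (h1 n).const_mul c

end TD

end MG.CP
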