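import Pool.Agent.Lib.MP_33b3f9_ag.MG.CP.AA

/-!
Pull back of rational functions.
-/

set_option autoImplicit false
set_option linter.unusedSectionVars false

namespace MG.CP

open Polynomial Filter
open M8.CP (Uop)

namespace TD

variable {k : Type} [Field k] [IsAlgClosed k] {p : ℕ} [Fact p.Prime] [CharP k p] {gd : ℕ}
  {A : Type} [CommRing A] {Vt W ι : Type} [AddCommGroup Vt] [Module ℚ Vt] [AddCommGroup W]
  [Fintype ι] (D : TD k p gd A Vt W ι)

open Classical in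
/-- pull back of rational functions -/
noncomputable def kp (a : Vt × W → Vt × W) : D.KK →ₐ[k] D.KK :=
  if h : D.Good a then ((D.pull a).comp D.val).codRestrict D.Ksub h.pull_mem else AlgHom.id k _

variable {D}

theorem val_kp {a : Vt × W → Vt × W} (h : D.Good a) (c : D.KK) :
    D.val (D.kp a c) = D.pull a (D.val c) := by
  unfold kp
  rw [dif_pos h]
  rfl

theorem InA.comp {a b : Vt × W → Vt × W} (ha : D.InA a) (hb : D.Good b) : D.InA (a ∘ b) := by
  obtain ⟨s, hs, hc⟩ := ha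
  refine ⟨D.pull b s, hs.map _, fun i => ?_⟩
  obtain ⟨c, hc⟩ := hc i
  refine ⟨D.kp b c, ?_⟩
  rw [val_kp hb, ← map_mul, ← hc, pull_gm hb.1]
  rfl

theorem Good.comp {a b : Vt × W → Vt × W} (ha : D.Good a) (hb : D.Good b) : D.Good (a ∘ b) :=
  ⟨ha.1.comp hb.1, ha.2.comp hb⟩

theorem kp_comp {a b : Vt × W → Vt × W} (ha : D.Good a) (hb : D.Good b) :
    D.kp (a ∘ b) = (D.kp b).comp (D.kp a) := by
  refine AlgHom.ext fun c => D.val_inj ?_
  rw [val_kp (ha.comp hb), pull_comp ha.1 hb.1, AlgHom.comp_apply, val_kp hb, val_kp ha]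

variable (D)

theorem good_id : D.Good id := ⟨D.isDom_id, D.inA_id⟩

theorem kp_id : D.kp id = AlgHom.id k _ := by
  refine AlgHom.ext fun c => D.val_inj ?_
  rw [val_kp D.good_id, pull_id, AlgHom.id_apply]

theorem aa2_dom {a : Vt × W → Vt × W} (h : ∀ n, ∀ b ∈ D.G n, b ≠ 0 →
    ∃ m, ∃ g ∈ D.G m, g ≠ 0 ∧ ∀ z, b (a z) = 0 → g z = 0) : D.IsDom a := by
  refine isDom_iff.2 fun n b hb h0 => ?_
  obtain ⟨m, g, hg, hg0, hz⟩ := h n b hb h0
  exact D.isUnit_gm.2 ((D.isUnit_gm.1 (D.isUnit_gm_G hg hg0)).mono fun z h1 h2 => h1 (hz z h2))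

theorem aa2_pow_ne {f : Vt × W → k} (hf : f ≠ 0) (m : ℕ) : f ^ m ≠ 0 := fun h =>
  hf (funext fun z => eq_zero_of_pow_eq_zero (congrFun h z))

/-- `isDom_iff`; `b (z + u) ≠ 0 ↔ Uop (n * M) u (b ^ M) z ≠ 0`; `trl u = id + const`. -/
theorem good_trl (u : Vt × W) : D.Good (trl u) := by
  refine ⟨D.aa2_dom fun n b hb h0 => ?_, (D.inA_id.add_sub (D.inA_const u)).1⟩
  obtain ⟨M, hM, h1, h2⟩ := D.exists_level u
  refine ⟨n * M, Uop D.eps (n * M) u (b ^ M), D.tr _ u ?_ ?_ _ (D.pow_mem hb M),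
    D.U_ne_zero _ u (aa2_pow_ne h0 M), fun z hz => ?_⟩
  · rw [← mul_assoc, mul_smul]
    exact D.Lam.nsmul_mem h1 _
  · rw [← mul_assoc, mul_smul, h2, smul_zero]
  · have h3 : b (z + u) = 0 := hz
    show _ * b (z + u) ^ M = 0
    rw [h3, zero_pow (by omega), mul_zero]

theorem good_nm {c : ℕ} (hc : c ≠ 0) : D.Good (nm c : Vt × W → Vt × W) := by
  refine ⟨D.aa2_dom fun n b hb h0 => ⟨_, _, D.nsmul_mem hb c, fun h => h0 (funext fun z => ?_),
    fun z hz => hz⟩, D.mem_AA.1 (D.AA.nsmul_mem (D.mem_AA.2 D.inA_id) c)⟩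
  obtain ⟨z', rfl⟩ := D.nsmul_surj hc z
  exact congrFun h z'

theorem good_neg : D.Good fun z => -z := by
  refine ⟨D.aa2_dom fun n b hb h0 => ⟨_, _, D.mul n (-1) b hb, fun h => h0 (funext fun z => ?_),
    fun z hz => ?_⟩, D.mem_AA.1 (D.AA.neg_mem (D.mem_AA.2 D.inA_id))⟩
  · have h1 := congrFun h (-z)
    simpa using h1
  · simpa using hz

end TD

end MG.CP
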