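import Pool.Agent.Lib.MP_33b3f9_ag.M8.CP.Quad

/-!
Adjointness and the formal computation.
-/

set_option autoImplicit false
set_option linter.unusedSectionVars false

namespace MG.CP

open Polynomial Filter
open M8.CP (IsQuad polar)

variable {A G : Type} [CommRing A] [CommGroup G]

/-- `x ^ m * δ (p / x)`, with conjugate coefficients. -/
noncomputable def recip (bar : A →+* A) (p m : ℕ) (δ : A[X]) : A[X] :=
  ∑ i ∈ Finset.range (m + 1), monomial (m - i) (bar (δ.coeff i) * (p : A) ^ i)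

theorem adj_pow {H : Type} [AddCommGroup H] (p : ℕ) (B : A[X] →+ A[X] →+ H)
    (hs : ∀ a y, B (X * a) (X * y) = p • B a y) (i : ℕ) (a y : A[X]) :
    B (X ^ i * a) (X ^ i * y) = p ^ i • B a y := by
  induction i with
  | zero => simp
  | succ i ih => rw [pow_succ' X, mul_assoc, mul_assoc, hs, ih, smul_smul, pow_succ']

theorem adj_add {H : Type} [AddCommGroup H] (bar : A →+* A) (p : ℕ) (B : A[X] →+ A[X] →+ H)
    (hs : ∀ a y, B (X * a) (X * y) = p • B a y)
    (hb : ∀ c a y, B (C c * a) y = B a (C (bar c) * y)) (δ : A[X]) (m : ℕ)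
    (hm : δ.natDegree ≤ m) (a y : A[X]) :
    B (δ * a) (X ^ m * y) = B a (recip bar p m δ * y) := by
  conv_lhs => rw [δ.as_sum_range' (m + 1) (Nat.lt_succ_of_le hm)]
  rw [recip, Finset.sum_mul, Finset.sum_mul, map_sum, map_sum, AddMonoidHom.finsetSum_apply]
  refine Finset.sum_congr rfl fun i hi' => ?_
  have him : i ≤ m := Nat.lt_succ_iff.1 (Finset.mem_range.1 hi')
  have e1 : monomial i (δ.coeff i) * a = X ^ i * (C (δ.coeff i) * a) := by
    rw [← C_mul_X_pow_eq_monomial]
    ring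
  have e2 : X ^ m * y = X ^ i * (X ^ (m - i) * y) := by
    rw [← mul_assoc, ← pow_add, Nat.add_sub_cancel' him]
  have e3 : monomial (m - i) (bar (δ.coeff i) * (p : A) ^ i) * y =
      p ^ i • (C (bar (δ.coeff i)) * (X ^ (m - i) * y)) := by
    rw [← C_mul_X_pow_eq_monomial, map_mul, map_pow, map_natCast, nsmul_eq_mul, Nat.cast_pow]
    ring
  rw [e1, e2, e3, adj_pow p B hs, hb, map_nsmul]

/-- Adjointness. `β` is additive in each variable, `β (X * a) (X * y) = β a y ^ p`. -/
theorem adj (bar : A →+* A) (p : ℕ) (β : A[X] → A[X] → G)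
    (h1 : ∀ a a' y, β (a + a') y = β a y * β a' y) (h2 : ∀ a y y', β a (y + y') = β a y * β a y')
    (hs : ∀ a y, β (X * a) (X * y) = β a y ^ p)
    (hb : ∀ c a y, β (C c * a) y = β a (C (bar c) * y)) (δ : A[X]) (m : ℕ)
    (hm : δ.natDegree ≤ m) (a y : A[X]) : β (δ * a) (X ^ m * y) = β a (recip bar p m δ * y) := by
  let B : A[X] →+ A[X] →+ Additive G := AddMonoidHom.mk'
    (fun a => AddMonoidHom.mk' (fun y => Additive.ofMul (β a y)) fun y y' =>
      congrArg Additive.ofMul (h2 a y y'))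
    fun a a' => AddMonoidHom.ext fun y => congrArg Additive.ofMul (h1 a a' y)
  exact Additive.ofMul.injective (adj_add bar p B (fun a y => congrArg Additive.ofMul (hs a y))
    (fun c a y => congrArg Additive.ofMul (hb c a y)) δ m hm a y)

/-- Adjointness passes from the generators to the ring. -/
theorem adj_gen {H : Type} [AddCommGroup H] (bar : A →+* A) {S : Set A}
    (gen : Algebra.adjoin ℤ S = ⊤) (B : A[X] →+ A[X] →+ H)
    (hb : ∀ c ∈ S, ∀ a y, B (C c * a) y = B a (C (bar c) * y)) (c : A) (a y : A[X]) :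
    B (C c * a) y = B a (C (bar c) * y) := by
  have hc : c ∈ Algebra.adjoin ℤ S := gen ▸ Algebra.mem_top
  induction hc using Algebra.adjoin_induction generalizing a y with
  | mem c hc => exact hb c hc a y
  | algebraMap n =>
    rw [eq_intCast, map_intCast, map_intCast, map_intCast, ← zsmul_eq_mul, ← zsmul_eq_mul,
      map_zsmul, map_zsmul, AddMonoidHom.smul_apply]
  | add c c' _ _ h h' =>
    rw [map_add, map_add, map_add, add_mul, add_mul, map_add, map_add, AddMonoidHom.add_apply,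
      h, h']
  | mul c c' _ _ h h' =>
    rw [C_mul, map_mul bar, C_mul, mul_assoc, h, h', mul_assoc, mul_left_comm]

/-- The formal step for `γ = c + p ^ N δ`. The form `B a b = m • polar q a (2 b)` is biadditive and
has exact adjoints. With `c ^ 2 - d = p ^ N e` and
`r = e X ^ N + c X ^ N δ + c δ' + p ^ N δ' δ` one has `B (X ^ N) r = B γ γ - d B 1 1`. -/
theorem formal (bar : A →+* A) (p m : ℕ) {S : Set A} (gen : Algebra.adjoin ℤ S = ⊤)
    (hm : ∀ z ∈ S, z * bar z = m) {q : A[X] → G} (hq : IsQuad q) (hX : ∀ a, q (X * a) = q a ^ p)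
    (hz : ∀ z ∈ S, ∀ a, q (C z * a) = q a ^ m) (δ : A[X]) (N c d : ℕ) (e : ℤ)
    (hN : δ.natDegree ≤ N) (he : (c : ℤ) ^ 2 - d = (p : ℤ) ^ N * e)
    (hr : ∀ a, q (a + (e • X ^ N + c • (X ^ N * δ) + c • recip bar p N δ +
      p ^ N • (recip bar p N δ * δ))) = q a) :
    q (c • 1 + p ^ N • δ) ^ (4 * m) = (q 1 ^ d) ^ (4 * m) := by
  let B0 : A[X] →+ A[X] →+ Additive G := AddMonoidHom.mk'
    (fun a => AddMonoidHom.mk' (fun y => Additive.ofMul (polar q a (y + y))) fun y y' => by
      rw [← ofMul_mul, ← hq.polar_two_add, add_add_add_comm y y'])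
    fun a a' => AddMonoidHom.ext fun y => congrArg Additive.ofMul (hq.polar_add_two a a' y)
  have hB0 : ∀ a y, B0 a y = Additive.ofMul (polar q a (y + y)) := fun _ _ => rfl
  have hsim : ∀ (u : A[X]) (n : ℕ), (∀ a, q (u * a) = q a ^ n) → ∀ a y,
      B0 (u * a) (u * y) = n • B0 a y := fun u n hu a y => by
    rw [hB0, hB0, ← ofMul_pow, polar, polar, ← mul_add, ← mul_add, hu, hu, hu, div_pow, mul_pow]
  have hself : ∀ a, B0 a a = 4 • Additive.ofMul (q a) := fun a =>
    congrArg Additive.ofMul ((hq.polar_two a a).trans (hq.polar_sq_self a))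
  let B : A[X] →+ A[X] →+ Additive G := m • B0
  have hB : ∀ a y, B a y = m • B0 a y := fun _ _ => rfl
  have hs : ∀ a y, B (X * a) (X * y) = p • B a y := fun a y => by
    rw [hB, hB, hsim X p hX, smul_comm]
  have hb := adj_gen bar gen B fun z hzS a y => by
    rw [hB, hB, ← hsim (C z) m (hz z hzS) a, ← mul_assoc, ← C_mul, hm z hzS, map_natCast,
      ← nsmul_eq_mul, map_nsmul]
  set r := e • X ^ N + c • (X ^ N * δ) + c • recip bar p N δ + p ^ N • (recip bar p N δ * δ)
    with hrd
  have h0 : B (X ^ N) r = 0 := by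
    have h1 := hr 0
    have h2 := hr r
    rw [zero_add, hq.zero] at h1
    rw [hB, hB0, polar, ← add_assoc, hr, hr, h2, h1, mul_one, div_self', ofMul_one, smul_zero]
  have a1 := adj_pow p B hs N 1 1
  have a2 := adj_pow p B hs N 1 δ
  have a3 := adj_add bar p B hs hb δ N hN (X ^ N) 1
  have a4 := adj_add bar p B hs hb δ N hN (X ^ N) δ
  rw [mul_comm δ, adj_pow p B hs] at a3 a4
  rw [mul_one] at a1 a2 a3
  rw [hrd, map_add, map_add, map_add, map_zsmul, map_nsmul, map_nsmul, map_nsmul, a1, a2, ← a3,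
    ← a4] at h0
  have key : B (c • 1 + p ^ N • δ) (c • 1 + p ^ N • δ) = d • B 1 1 := by
    have hd : (d : ℤ) = (c : ℤ) ^ 2 - (p : ℤ) ^ N * e := by rw [← he]; ring
    simp only [map_add, map_nsmul, AddMonoidHom.add_apply, AddMonoidHom.nsmul_apply]
    rw [← natCast_zsmul (B 1 1) d, hd]
    linear_combination (norm := module) h0
  rw [hB, hB, hself, hself] at key
  apply Additive.ofMul.injective
  rw [ofMul_pow, ofMul_pow, ofMul_pow, mul_comm 4 m, mul_smul, key]
  module

end MG.CP
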