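import Pool.Agent.Lib.MP_33b3f9_ag.MG.CP.QO2

/-!
Pull back of classes.
-/

set_option autoImplicit false
set_option linter.unusedSectionVars false

namespace MG.CP

open Polynomial Filter
open M8.CP (Uop)

namespace TD

variable {k : Type} [Field k] [IsAlgClosed k] {p : ℕ} [Fact p.Prime] [CharP k p] {gd : ℕ}
  {A : Type} [CommRing A] {Vt W ι : Type} [AddCommGroup Vt] [Module ℚ Vt] [AddCommGroup W]
  [Fintype ι] (D : TD k p gd A Vt W ι)

/-- classes of germs modulo rational functions -/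
abbrev QT : Type := D.FFˣ ⧸ D.uO ⊤

open Classical in
/-- the germ of `X0 ∘ a` as a unit -/
noncomputable def fu (a : Vt × W → Vt × W) : D.FFˣ :=
  if h : IsUnit (D.gm (D.X0 ∘ a)) then h.unit else 1

/-- pull back of units -/
noncomputable def pu (b : Vt × W → Vt × W) : D.FFˣ →* D.FFˣ :=
  Units.map (D.pull b : D.FF →* D.FF)

theorem uO_le_comap {b : Vt × W → Vt × W} (hb : D.Good b) :
    D.uO ⊤ ≤ (D.uO ⊤).comap (D.pu b) := by
  rintro u ⟨c, -, -, hc⟩
  refine ⟨D.kp b c, ValuationSubring.mem_top _, ValuationSubring.mem_top _, ?_⟩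
  rw [val_kp hb, ← hc]
  rfl

open Classical in
/-- pull back of classes -/
noncomputable def pq (b : Vt × W → Vt × W) : D.QT →* D.QT :=
  if h : D.Good b then QuotientGroup.map _ _ (D.pu b) (D.uO_le_comap h) else MonoidHom.id _

variable {D} {O : ValuationSubring D.KK} {a a' b : Vt × W → Vt × W}

theorem val_pu (s : D.FFˣ) : (D.pu b s : D.FF) = D.pull b s := rfl

theorem val_fu (h : D.IsDom a) : (D.fu a : D.FF) = D.gm (D.X0 ∘ a) := by
  rw [fu, dif_pos (isDom_iff.1 h 1 D.X0 D.X0_mem D.X0_ne), IsUnit.unit_spec]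

theorem pu_fu (ha : D.IsDom a) (hb : D.IsDom b) : D.pu b (D.fu a) = D.fu (a ∘ b) := by
  refine Units.ext ?_
  rw [val_pu, val_fu ha, pull_gm hb, val_fu (ha.comp hb)]
  rfl

/-- `InA.ratio`, `isFr_top` -/
theorem qO_top (h : D.Good a) : D.qO ⊤ a = QuotientGroup.mk (D.fu a) := by
  refine (isFr_top fun i => ?_).qO_eq
  rw [val_fu h.1]
  exact h.2.ratio (isDom_iff.1 h.1 1 D.X0 D.X0_mem D.X0_ne) i

theorem pq_mk (hb : D.Good b) (s : D.FFˣ) :
    D.pq b (QuotientGroup.mk s) = QuotientGroup.mk (D.pu b s) := by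
  rw [pq, dif_pos hb]
  rfl

/-- `IsFr.pull` -/
theorem pq_qO (ha : D.InA a) (hb : D.Good b) : D.pq b (D.qO ⊤ a) = D.qO ⊤ (a ∘ b) := by
  obtain ⟨s, hs⟩ := ha.exists_fr ⊤
  rw [hs.qO_eq, (hs.pull hb).qO_eq, pq_mk hb]
  rfl

theorem mk_eq_top {s s' : D.FFˣ} : (QuotientGroup.mk s : D.QT) = QuotientGroup.mk s' ↔
    ∃ c : D.KK, (s : D.FF) = D.val c * s' := by
  rw [mk_eq_iff]
  refine exists_congr fun c => ⟨fun h => h.2.2.2, fun h =>
    ⟨ValuationSubring.mem_top _, ValuationSubring.mem_top _, fun h0 => s.ne_zero ?_, h⟩⟩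
  rw [h, h0, map_zero, zero_mul]

theorem mk_eq_one {s : D.FFˣ} : (QuotientGroup.mk s : D.QT) = 1 ↔
    ∃ c : D.KK, (s : D.FF) = D.val c := by
  rw [← QuotientGroup.mk_one, mk_eq_top]
  simp only [Units.val_one, mul_one]

end TD

end MG.CP
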