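import Pool.Agent.Lib.MP_33b3f9_ag.MG.CP.Div
import Pool.Agent.Lib.MP_33b3f9_ag.MG.CP.Phi

/-!
A torsion class with all symmetries is trivial.
-/

set_option autoImplicit false
set_option linter.unusedSectionVars false

namespace MG.CP

open Polynomial Filter
open M8.CP (Uop)

namespace TD

variable {k : Type} [Field k] [IsAlgClosed k] {p : ℕ} [Fact p.Prime] [CharP k p] {gd : ℕ}
  {A : Type} [CommRing A] {Vt W ι : Type} [AddCommGroup Vt] [Module ℚ Vt] [AddCommGroup W]
  [Fintype ι] (D : TD k p gd A Vt W ι)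

variable {D}

/-- `pull (nm N) s = val c`; `c` is fixed by `trl (x, 0)` if `N • x ∈ Lam`
(`nm N ∘ trl u = trl (N • u) ∘ nm N`, `pull_comp`); `art`, `mem_of_pull`, `quo_nm`. -/
theorem triv_nm {N : ℕ} (hN : ¬ p ∣ N) {s : D.FFˣ}
    (h2 : ∀ l ∈ D.Lam, D.pu (trl (l, (0 : W))) s = s)
    (h3 : D.pq (nm N : Vt × W → Vt × W) (QuotientGroup.mk s) = 1) :
    (QuotientGroup.mk s : D.QT) = 1 := by
  have h0 : N ≠ 0 := fun e => hN (e ▸ dvd_zero p)
  have g4 : D.Good (nm N : Vt × W → Vt × W) := D.good_nm h0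
  rw [pq_mk g4, mk_eq_one] at h3
  obtain ⟨c, hc⟩ := h3
  rw [val_pu] at hc
  have hF : c ∈ D.Fm N := by
    refine D.art hN fun x hx => D.val_inj ?_
    have e : (nm N : Vt × W → Vt × W) ∘ trl (x, (0 : W)) = trl (N • x, (0 : W)) ∘ nm N := by
      funext z
      simp only [Function.comp, nm, trl, smul_add, Prod.smul_mk, smul_zero]
    have h4 := congrArg Units.val (h2 _ hx)
    rw [val_pu] at h4
    rw [val_kp (D.good_trl _), ← hc, ← pull_comp g4.1 (D.good_trl _).1, e,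
      pull_comp (D.good_trl _).1 g4.1, h4]
  exact mk_eq_one.2 (mem_of_pull g4 (D.quo_nm h0) hF hc)

end TD

end MG.CP
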