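import Pool.Agent.Lib.MP_33b3f9_ag.MG.CP.Sim
import Pool.Agent.Lib.MP_33b3f9_ag.MG.CP.Triv

/-!
The class of a similitude that is close to an integer.
-/

set_option autoImplicit false
set_option linter.unusedSectionVars false

namespace MG.CP

open Polynomial Filter
open M8.CP (Uop)

namespace TD

variable {k : Type} [Field k] [IsAlgClosed k] {p : ℕ} [Fact p.Prime] [CharP k p] {gd : ℕ}
  {A : Type} [CommRing A] {Vt W ι : Type} [AddCommGroup Vt] [Module ℚ Vt] [AddCommGroup W]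
  [Fintype ι] (D : TD k p gd A Vt W ι)

/-- `formal` for `qO O ∘ pol` (`isQuad_pol`, `qO_sg`, `qO_gen`, `X_pol_add`, `qO_congr`). -/
theorem hyp_of (hs : ∀ x : Vt, (∀ c : ℚ, c • x ∈ D.Lam) → x = 0) (δ : A[X]) (N c d : ℕ)
    (hN : δ.natDegree ≤ N) (hd : ¬ p ∣ d) (hc : d ≡ c ^ 2 [MOD p ^ N])
    (sim : ∀ x y, D.eps (D.polV (c • 1 + p ^ N • δ) x) (D.polV (c • 1 + p ^ N • δ) y) =
      D.eps x y ^ d) : D.Hyp (c • 1 + p ^ N • δ) d := by
  have hp : p.Prime := Fact.out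
  have h1 := D.sim_nrm hs (γ' := c • Polynomial.X ^ N + p ^ N • recip D.bar p N δ) (N := N)
    (fun x y => by
      simp only [map_add, map_nsmul, map_one, LinearMap.add_apply, LinearMap.smul_apply,
        Module.End.one_apply, D.eps_add_left, D.eps_add_right, D.eps_nsmul_left,
        D.eps_nsmul_right]
      rw [D.eps_adj δ N hN]) sim
  refine ⟨hd, sim, ⟨_, N, h1⟩, 4 * D.ma, hp.not_dvd_mul (D.not_dvd_two_pow 2) D.m_cop,
    fun O hO => ?_⟩
  obtain ⟨e, he⟩ := Nat.modEq_iff_dvd.1 hc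
  push_cast at he
  have h2 : D.polV (e • Polynomial.X ^ N + c • (Polynomial.X ^ N * δ) + c • recip D.bar p N δ +
      p ^ N • (recip D.bar p N δ * δ)) = 0 := by
    refine LinearMap.ext fun x => div_tf (pow_ne_zero N hp.ne_zero) ?_
    rw [← LinearMap.smul_apply, ← map_nsmul]
    refine (congrArg (fun a => D.polV a x) ?_).trans (LinearMap.congr_fun h1 x)
    have he' := congrArg (Int.cast : ℤ → A[X]) he
    push_cast at he'
    simp only [nsmul_eq_mul, zsmul_eq_mul]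
    push_cast
    linear_combination -Polynomial.X ^ N * he'
  have h3 := formal D.bar p D.ma D.gen (fun z hz => D.mul_bar hz) (isQuad_pol (D := D) hO)
    (fun a => by
      rw [D.pol_mul, D.pol_X]
      exact qO_sg (D.inA_pol a))
    (fun z hz a => by
      rw [D.pol_mul]
      exact qO_gen hO hz (D.inA_pol a)) δ N c d e hN he
    fun a => qO_congr fun i z => D.X_pol_add h2 a i z
  rwa [D.pol_one] at h3

variable {D} {δ : A[X]} {d : ℕ}

/-- `pu_fu`, `val_fu`; pointwise `X0 (γ (z + l)) * X0 z ^ d = X0 (γ z) * X0 (z + l) ^ d`. -/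
theorem Hyp.per (h : D.Hyp δ d) {l : Vt} (hl : l ∈ D.Lam) :
    D.pu (trl (l, (0 : W))) (D.fu (D.pol δ) / D.fu id ^ d) = D.fu (D.pol δ) / D.fu id ^ d := by
  have ht := (D.good_trl (l, (0 : W))).1
  rw [_root_.map_div, map_pow, pu_fu h.good.1 ht, pu_fu D.isDom_id ht, div_eq_div_iff_mul_eq_mul]
  apply Units.ext
  rw [Units.val_mul, Units.val_mul, Units.val_pow_eq_pow_val, Units.val_pow_eq_pow_val,
    val_fu (h.good.1.comp ht), val_fu D.isDom_id, val_fu h.good.1, val_fu (D.isDom_id.comp ht),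
    ← map_pow, ← map_pow, ← map_mul, ← map_mul]
  refine congrArg D.gm (funext fun z => ?_)
  obtain ⟨i, hi⟩ := D.X0_eq
  have e1 : D.X i (D.pol δ (z + (l, 0))) =
      (D.eps (D.polV δ l) (D.polV δ z.1) ^ 4)⁻¹ * D.X i (D.pol δ z) := by
    rw [pol_add_vt]
    exact D.X_add_of_mem (u := (D.polV δ l, 0)) (D.polV_lam δ hl) D.C.zero_mem i (D.pol δ z)
  have e2 : D.X i (z + (l, 0)) = (D.eps l z.1 ^ 4)⁻¹ * D.X i z :=
    D.X_add_of_mem (u := (l, 0)) hl D.C.zero_mem i z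
  rw [h.sim] at e1
  show D.X0 (D.pol δ (z + (l, 0))) * D.X0 z ^ d = D.X0 (D.pol δ z) * D.X0 (z + (l, 0)) ^ d
  rw [hi, e1, e2, mul_pow, inv_pow, ← pow_mul, ← pow_mul, mul_comm 4 d]
  ring

/-- `triv_nm` for `s = fu γ / fu id ^ d`, whose class is `qO ⊤ γ / qO ⊤ id ^ d` (`qO_top`). -/
theorem Hyp.class_top (h : D.Hyp δ d) : D.qO ⊤ (D.pol δ) = D.qO ⊤ id ^ d := by
  have hs : (QuotientGroup.mk (D.fu (D.pol δ) / D.fu id ^ d) : D.QT) =
      D.qO ⊤ (D.pol δ) / D.qO ⊤ id ^ d := by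
    rw [QuotientGroup.mk_div, QuotientGroup.mk_pow, qO_top h.good, qO_top D.good_id]
  obtain ⟨M, hM, h1⟩ := h.cls
  have key : (QuotientGroup.mk (D.fu (D.pol δ) / D.fu id ^ d) : D.QT) = 1 := by
    refine triv_nm hM (fun l hl => h.per hl) ?_
    have hn : D.Good (nm M : Vt × W → Vt × W) := D.good_nm fun e => hM (e ▸ dvd_zero p)
    have e1 : D.qO ⊤ (D.pol δ ∘ nm M) = D.qO ⊤ (D.pol δ) ^ M ^ 2 := by
      have e : D.pol δ ∘ nm M = M • D.pol δ := funext fun z => D.pol_map_nsmul δ M z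
      rw [e]
      exact (isQuad (D := D) D.over_top).nsmul M ⟨_, h.good.2⟩
    have e2 : D.qO ⊤ (id ∘ (nm M : Vt × W → Vt × W)) = D.qO ⊤ id ^ M ^ 2 := qO_nm D.over_top M
    rw [hs, _root_.map_div, map_pow, pq_qO h.good.2 hn, pq_qO D.inA_id hn, e1, e2, sq, pow_mul,
      h1 ⊤ D.over_top, ← pow_mul, ← pow_mul, ← pow_mul, mul_comm d]
    exact div_self' _
  rw [hs] at key
  exact div_eq_one.1 key

theorem Hyp.class_all (h : D.Hyp δ d) (O : ValuationSubring D.KK) (hO : D.Over O) :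
    D.qO O (D.pol δ) = D.qO O id ^ d := by
  obtain ⟨M, hM, h1⟩ := h.cls
  exact qO_of_pow (N := M) h.good.2 D.inA_id (fun e => hM (e ▸ dvd_zero p)) h.class_top
    (h1 O hO)

end TD

end MG.CP
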