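import Pool.Agent.Lib.MP_33b3f9_ag.MG.CP.Every1

/-!
Sections pull back to sections, at every prime to `p` point.
-/

set_option autoImplicit false
set_option linter.unusedSectionVars false

namespace MG.CP

open Polynomial Filter
open M8.CP (Uop)

namespace TD

variable {k : Type} [Field k] [IsAlgClosed k] {p : ℕ} [Fact p.Prime] [CharP k p] {gd : ℕ}
  {A : Type} [CommRing A] {Vt W ι : Type} [AddCommGroup Vt] [Module ℚ Vt] [AddCommGroup W]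
  [Fintype ι] (D : TD k p gd A Vt W ι)

variable {D} {δ : A[X]} {d : ℕ}

/-- Apply the hypothesis to `Uop n (polV δ x, 0) f` and `Uop (n * d) (x, 0) f'` (`tr`, `polV_lam`, `U_comp`,
`gm_U`, `eps_ne_zero`). -/
theorem Hyp.move (h : D.Hyp δ d) {n : ℕ} {z : Vt × W}
    (hz : ∀ f ∈ D.G n, ∀ f' ∈ D.G (n * d), D.gm f' = D.gm (f ∘ D.pol δ) → f' z = f (D.pol δ z))
    {x : Vt} (hx : (4 * n) • x ∈ D.Lam) {f f' : Vt × W → k} (hf : f ∈ D.G n)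
    (hf' : f' ∈ D.G (n * d)) (he : D.gm f' = D.gm (f ∘ D.pol δ)) :
    f' (z + (x, 0)) = f (D.pol δ (z + (x, 0))) := by
  have h1 : Uop D.eps n (D.polV δ x, 0) f ∈ D.G n :=
    D.tr n _ (by rw [← map_nsmul]; exact D.polV_lam δ hx) (smul_zero _) f hf
  have h2 : Uop D.eps (n * d) (x, 0) f' ∈ D.G (n * d) :=
    D.tr (n * d) _ (by
      rw [← mul_assoc, mul_comm, mul_smul]
      exact D.Lam.nsmul_mem hx d) (smul_zero _) f' hf'
  have h3 := hz _ h1 _ h2 (by rw [h.U_comp]; exact D.gm_U he _ _)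
  exact mul_left_cancel₀ (pow_ne_zero _ (D.eps_ne_zero x z.1))
    (h3.trans (congrFun (h.U_comp n f x) z))

/-- `N` prime to `p` (only `N ≠ 0` matters) with `N • x0, N • x ∈ Lam`. Level `2 ^ s * (i * N ^ 2)`, the
functions `f ∘ nm N`, `f' ∘ nm N` (`nsmul_mem`, `good_nm`, `pol_map_nsmul`); `move` from `x0` to
`N⁻¹ • x`. -/
theorem Hyp.everywhere (h : D.Hyp δ d) {s : ℕ} {x0 : Vt}
    (h0 : ∀ i, ∀ f ∈ D.G (2 ^ s * i), ∀ f' ∈ D.G (2 ^ s * i * d), D.gm f' = D.gm (f ∘ D.pol δ) →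
      f' (x0, 0) = f (D.pol δ (x0, 0))) {i : ℕ} {f f' : Vt × W → k} (hf : f ∈ D.G (2 ^ s * i))
    (hf' : f' ∈ D.G (2 ^ s * i * d)) (he : D.gm f' = D.gm (f ∘ D.pol δ)) (x : Vt) :
    f' (x, 0) = f (D.polV δ x, 0) := by
  obtain ⟨N1, hN1, hx0⟩ := D.lam_tors x0
  obtain ⟨N2, hN2, hx⟩ := D.lam_tors x
  have hN : N1 * N2 ≠ 0 := mul_ne_zero (fun e => hN1 (e ▸ dvd_zero p)) fun e => hN2 (e ▸ dvd_zero p)
  obtain ⟨⟨x1, y⟩, hy⟩ := D.nsmul_surj hN (x, (0 : W))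
  have h1 : (N1 * N2) • x1 = x := congrArg Prod.fst hy
  have h2 : (N1 * N2) • ((x1, 0) : Vt × W) = (x, 0) := by rw [Prod.smul_mk, h1, smul_zero]
  have hF := D.nsmul_mem hf (N1 * N2)
  have hF' := D.nsmul_mem hf' (N1 * N2)
  rw [mul_assoc] at hF
  rw [mul_right_comm, mul_assoc (2 ^ s)] at hF'
  have h3 : (fun z => f ((N1 * N2) • z)) ∘ D.pol δ = (f ∘ D.pol δ) ∘ nm (N1 * N2) :=
    funext fun z => congrArg f (D.pol_map_nsmul δ _ z).symm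
  have h4 := h.move (h0 (i * (N1 * N2) ^ 2)) (x := x1 - x0) (by
    have e : (4 * (2 ^ s * (i * (N1 * N2) ^ 2))) • (x1 - x0) =
        (4 * 2 ^ s * i * N1) • N2 • x - (4 * 2 ^ s * i * N1 * N2 ^ 2) • N1 • x0 := by
      rw [← h1, smul_sub, smul_smul, smul_smul, smul_smul]
      congr 2 <;> ring
    rw [e]
    exact D.Lam.sub_mem (D.Lam.nsmul_mem hx _) (D.Lam.nsmul_mem hx0 _)) hF hF' (by
    rw [h3, ← pull_gm (D.good_nm hN).1, ← he, pull_gm (D.good_nm hN).1]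
    rfl)
  rw [Prod.mk_add_mk, add_sub_cancel, add_zero, h2, ← D.pol_map_nsmul, h2] at h4
  rw [h4, D.pol_vt]

/-- `exists_all` (`t = s`, `i = n * 2 ^ s`, the function `f ∘ nm (2 ^ s)`), `exists_E` at level
`2 ^ s`, `exists_fst`, `eq_at`, `everywhere`. -/
theorem Hyp.main (h : D.Hyp δ d) : ∃ t : ℕ, ∀ n, ¬ p ∣ n → ∀ f ∈ D.G n,
    ∃ g ∈ D.G (n * d * 4 ^ t), ∀ x : Vt, g (x, 0) = f (D.polV δ (2 ^ t • x), 0) := by
  obtain ⟨s, hs⟩ := h.exists_all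
  have hp : p.Prime := Fact.out
  have h1 := hs 1 hp.not_dvd_one
  rw [mul_one] at h1
  obtain ⟨E, hE, h2⟩ := exists_E h1
  obtain ⟨x0, hx0⟩ := D.exists_fst hE
  refine ⟨s, fun n hn f hf => ?_⟩
  have hF := D.nsmul_mem hf (2 ^ s)
  rw [show n * (2 ^ s) ^ 2 = 2 ^ s * (n * 2 ^ s) by ring] at hF
  obtain ⟨f', hf', he⟩ := hs _ (hp.not_dvd_mul hn (D.not_dvd_two_pow s)) _ hF
  refine ⟨f', ?_, fun x => ?_⟩
  · rwa [show n * d * 4 ^ s = 2 ^ s * (n * 2 ^ s) * d by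
      rw [show (4 : ℕ) = 2 * 2 from rfl, mul_pow]; ring]
  · rw [h.everywhere (x0 := x0) (fun i f hf f' hf' he => eq_at (fun f hf =>
      (h2 f hf).imp fun f' a => ⟨a.1, a.2.1, a.2.2 _ hx0⟩) hf hf' he) hF hf' he x, map_nsmul,
      Prod.smul_mk, smul_zero]

end TD

end MG.CP
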