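import Pool.Agent.Lib.MP_33b3f9_ag.MG.CP.Ka
import Pool.Agent.Lib.MP_33b3f9_ag.MG.CP.Grow

/-!
The filtration of the function field.
-/

set_option autoImplicit false
set_option linter.unusedSectionVars false

namespace MG.CP

open Polynomial Filter
open M8.CP (Uop)

namespace TD

variable {k : Type} [Field k] [IsAlgClosed k] {p : ℕ} [Fact p.Prime] [CharP k p] {gd : ℕ}
  {A : Type} [CommRing A] {Vt W ι : Type} [AddCommGroup Vt] [Module ℚ Vt] [AddCommGroup W]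
  [Fintype ι] (D : TD k p gd A Vt W ι)

/-- the space `G n / X0 ^ n` -/
noncomputable def GK (n : ℕ) : Submodule k D.KK where
  carrier := {c | ∃ f ∈ D.G n, D.val c * D.gm D.X0 ^ n = D.gm f}
  zero_mem' := ⟨0, zero_mem _, by rw [map_zero, map_zero, zero_mul]⟩
  add_mem' := by
    rintro a b ⟨f, hf, ha⟩ ⟨g, hg, hb⟩
    exact ⟨f + g, add_mem hf hg, by rw [map_add, map_add, add_mul, ha, hb]⟩
  smul_mem' := by
    rintro c a ⟨f, hf, ha⟩
    exact ⟨c • f, Submodule.smul_mem _ c hf, by rw [map_smul, map_smul, smul_mul_assoc, ha]⟩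

theorem mem_GK {n : ℕ} {c : D.KK} :
    c ∈ D.GK n ↔ ∃ f ∈ D.G n, D.val c * D.gm D.X0 ^ n = D.gm f := Iff.rfl

theorem fld_pow_mem (n : ℕ) : D.X0 ^ n ∈ D.G n := by
  simpa using D.pow_mem D.X0_mem n

theorem fld_pow_ne (n : ℕ) : D.X0 ^ n ≠ 0 := fun h =>
  pow_ne_zero n D.X0_zero (congrFun h 0)

theorem fld_cancel {n : ℕ} {c c' : D.KK}
    (h : D.val c * D.gm D.X0 ^ n = D.val c' * D.gm D.X0 ^ n) : c = c' :=
  D.val_inj ((D.isUnit_X0.pow n).mul_right_cancel h)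

theorem fld_one_mem (n : ℕ) : (1 : D.KK) ∈ D.GK n :=
  ⟨D.X0 ^ n, D.fld_pow_mem n, by rw [map_one, one_mul, map_pow]⟩

theorem exists_GK {n : ℕ} {f : Vt × W → k} (hf : f ∈ D.G n) :
    ∃ c ∈ D.GK n, D.val c * D.gm D.X0 ^ n = D.gm f := by
  obtain ⟨c, hc⟩ := D.exists_ratio hf (D.fld_pow_mem n) (D.fld_pow_ne n)
  rw [map_pow] at hc
  exact ⟨c, ⟨f, hf, hc⟩, hc⟩

/-- `Submodule.pow_induction_on_left'` in both directions -/
theorem mem_GK_pow {n : ℕ} {c : D.KK} :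
    c ∈ D.GK 1 ^ n ↔ ∃ f ∈ D.G 1 ^ n, D.val c * D.gm D.X0 ^ n = D.gm f := by
  constructor
  · intro h
    induction h using Submodule.pow_induction_on_left' with
    | algebraMap r =>
      exact ⟨algebraMap k _ r, Submodule.algebraMap_mem r, by
        rw [pow_zero, mul_one, AlgHom.commutes, AlgHom.commutes]⟩
    | add x y i _ _ hx hy =>
      obtain ⟨f, hf, ha⟩ := hx
      obtain ⟨g, hg, hb⟩ := hy
      exact ⟨f + g, add_mem hf hg, by rw [map_add, map_add, add_mul, ha, hb]⟩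
    | mem_mul m hm i x _ hx =>
      obtain ⟨f, hf, ha⟩ := hm
      obtain ⟨g, hg, hb⟩ := hx
      refine ⟨f * g, by rw [pow_succ']; exact Submodule.mul_mem_mul hf hg, ?_⟩
      rw [map_mul, map_mul, ← ha, ← hb, Nat.succ_eq_add_one]
      ring
  · rintro ⟨f, hf, hc⟩
    suffices h : ∃ c' ∈ D.GK 1 ^ n, D.val c' * D.gm D.X0 ^ n = D.gm f by
      obtain ⟨c', h1, h2⟩ := h
      rwa [D.fld_cancel (hc.trans h2.symm)]
    clear hc
    induction hf using Submodule.pow_induction_on_left' with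
    | algebraMap r =>
      exact ⟨algebraMap k _ r, Submodule.algebraMap_mem r, by
        rw [pow_zero, mul_one, AlgHom.commutes, AlgHom.commutes]⟩
    | add x y i _ _ hx hy =>
      obtain ⟨f, hf, ha⟩ := hx
      obtain ⟨g, hg, hb⟩ := hy
      exact ⟨f + g, add_mem hf hg, by rw [map_add, map_add, add_mul, ha, hb]⟩
    | mem_mul m hm i x _ hx =>
      obtain ⟨f, hf, ha⟩ := D.exists_GK hm
      obtain ⟨g, hg, hb⟩ := hx
      refine ⟨f * g, by rw [pow_succ']; exact Submodule.mul_mem_mul hf hg, ?_⟩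
      rw [map_mul, map_mul, ← ha, ← hb, Nat.succ_eq_add_one]
      ring

/-- `c ↦ f` is a linear bijection (`gm_inj_G`, `val_inj`, `isUnit_X0`). -/
theorem GK_equiv (n : ℕ) : Nonempty (D.GK n ≃ₗ[k] D.G n) := by
  let L : D.KK →ₗ[k] D.FF := (LinearMap.mulRight k (D.gm D.X0 ^ n)).comp D.val.toLinearMap
  let M : D.G n →ₗ[k] D.FF := D.gm.toLinearMap.comp (D.G n).subtype
  have hL : Function.Injective L := fun a b h => D.fld_cancel h
  have hM : Function.Injective M := fun a b h => Subtype.ext (D.gm_inj_G a.2 b.2 h)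
  have e : (D.GK n).map L = LinearMap.range M := by
    ext F
    constructor
    · rintro ⟨c, ⟨f, hf, hc⟩, rfl⟩
      exact ⟨⟨f, hf⟩, hc.symm⟩
    · rintro ⟨f, rfl⟩
      obtain ⟨c, hc, h⟩ := D.exists_GK f.2
      exact ⟨c, hc, h⟩
  exact ⟨((D.GK n).equivMapOfInjective L hL).trans
    ((LinearEquiv.ofEq _ _ e).trans (LinearEquiv.ofInjective M hM).symm)⟩

theorem grow : Grow p gd D.GK := by
  refine ⟨D.g_pos, by simpa using D.not_dvd_two_pow 1, Fact.out, fun n => ?_, D.fld_one_mem 0,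
    D.fld_one_mem 1, fun n m => ?_, fun n hn => ?_, fun n hn => ?_, fun s => ?_, fun c => ?_⟩
  · obtain ⟨e⟩ := D.GK_equiv n
    have := D.fin n
    exact e.symm.finiteDimensional
  · refine Submodule.mul_le.2 ?_
    rintro a ⟨f, hf, ha⟩ b ⟨g, hg, hb⟩
    refine ⟨f * g, D.mul_mem n m f g hf hg, ?_⟩
    rw [map_mul, map_mul, ← ha, ← hb]
    ring
  · obtain ⟨e⟩ := D.GK_equiv n
    rw [e.finrank_eq]
    exact D.dim_le n hn
  · obtain ⟨e⟩ := D.GK_equiv n
    rw [e.finrank_eq]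
    exact D.dim_eq n hn
  · ext c
    rw [mem_GK_pow, G_pow2, mem_GK]
  · obtain ⟨n, f, hf, g, hg, h0, h⟩ := D.KK_frac c
    obtain ⟨a, ha, ha'⟩ := D.exists_GK hf
    obtain ⟨b, hb, hb'⟩ := D.exists_GK hg
    refine ⟨n, a, ha, b, hb, ?_, D.fld_cancel (n := n) ?_⟩
    · rintro rfl
      rw [map_zero, zero_mul] at hb'
      exact (D.isUnit_gm_G hg h0).ne_zero hb'.symm
    · rw [map_mul, mul_assoc, hb', h, ha']

theorem GK_ne_bot (n : ℕ) : D.GK n ≠ ⊥ := by
  exact (Submodule.ne_bot_iff _).2 ⟨1, D.fld_one_mem n, one_ne_zero⟩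

/-- the affine coordinates -/
noncomputable def xx (i : ι) : D.KK := (D.exists_GK (D.X_mem i)).choose

theorem xx_mem (i : ι) : D.xx i ∈ D.GK 1 := (D.exists_GK (D.X_mem i)).choose_spec.1

theorem val_xx (i : ι) : D.val (D.xx i) * D.gm D.X0 = D.gm (D.X i) := by
  have : D.val (D.xx i) * D.gm D.X0 ^ 1 = D.gm (D.X i) :=
    (D.exists_GK (D.X_mem i)).choose_spec.2
  rwa [pow_one] at this

/-- `Ka_good good_id`, `kp_id` -/
theorem Ka_id : D.Ka id = ⊤ := by
  rw [Ka_good D.good_id, kp_id]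
  exact AlgHom.fieldRange_eq_top.2 Function.surjective_id

/-- `Ka_le` with `s = gm X0` -/
theorem adjoin_xx : IntermediateField.adjoin k (Set.range D.xx) = ⊤ := by
  rw [← top_le_iff, ← D.Ka_id]
  exact Ka_le D.isUnit_X0 fun i =>
    ⟨D.xx i, IntermediateField.subset_adjoin _ _ ⟨i, rfl⟩, (D.val_xx i).symm⟩

theorem kp_ext {φ ψ : D.KK →ₐ[k] D.KK} (h : ∀ i, φ (D.xx i) = ψ (D.xx i)) : φ = ψ := by
  ext c
  have hc : c ∈ IntermediateField.adjoin k (Set.range D.xx) := by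
    rw [D.adjoin_xx]; exact IntermediateField.mem_top
  induction hc using IntermediateField.adjoin_induction with
  | mem x hx => obtain ⟨i, rfl⟩ := hx; exact h i
  | algebraMap r => rw [AlgHom.commutes, AlgHom.commutes]
  | add x y _ _ hx hy => rw [map_add, map_add, hx, hy]
  | inv x _ hx => rw [map_inv₀, map_inv₀, hx]
  | mul x y _ _ hx hy => rw [map_mul, map_mul, hx, hy]

/-- `xx i = X i * X0 ^ (M - 1) / X0 ^ M`; `τ` is a unit because `X0 ^ M ∘ v` is one. -/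
theorem kp_eq_id {v : Vt × W → Vt × W} (hv : D.Good v) {M : ℕ} (hM : 1 ≤ M) (τ : D.FF)
    (h : ∀ f ∈ D.G M, D.gm (f ∘ v) = τ * D.gm f) : D.kp v = AlgHom.id k _ := by
  obtain ⟨m, rfl⟩ := Nat.exists_eq_add_of_le hM
  refine D.kp_ext fun i => D.val_inj ?_
  rw [val_kp hv, AlgHom.id_apply]
  have h1 : D.val (D.xx i) * D.gm (D.X0 ^ (1 + m)) = D.gm (D.X i * D.X0 ^ m) := by
    rw [map_mul, ← D.val_xx i, map_pow, map_pow]
    ring
  have h2 := congrArg (D.pull v) h1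
  have h3 : IsUnit (D.pull v (D.gm (D.X0 ^ (1 + m)))) :=
    (D.isUnit_gm_G (D.fld_pow_mem _) (D.fld_pow_ne _)).map _
  refine h3.mul_right_cancel ?_
  rw [map_mul] at h2
  rw [h2, pull_gm hv.1, pull_gm hv.1, h _ (D.fld_pow_mem _),
    h _ (D.mul_mem 1 m _ _ (D.X_mem i) (D.fld_pow_mem m)), ← h1]
  ring

/-- `gm_eq`; translations are dominant -/
theorem gm_U {f g : Vt × W → k} (h : D.gm f = D.gm g) (n : ℕ) (u : Vt × W) :
    D.gm (Uop D.eps n u f) = D.gm (Uop D.eps n u g) := by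
  rw [gm_eq] at h ⊢
  filter_upwards [Tendsto.eventually (D.good_trl u).1 h] with z hz
  exact congrArg (D.eps u.1 z.1 ^ (4 * n) * ·) hz

end TD

end MG.CP
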