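import Pool.Agent.Lib.MP_33b3f9_ag.MG.CP.Dom

/-!
Functions defined almost everywhere and the function field.
-/

set_option autoImplicit false
set_option linter.unusedSectionVars false

namespace MG.CP

open Polynomial Filter
open M8.CP (Uop)

namespace TD

variable {k : Type} [Field k] [IsAlgClosed k] {p : ℕ} [Fact p.Prime] [CharP k p] {gd : ℕ}
  {A : Type} [CommRing A] {Vt W ι : Type} [AddCommGroup Vt] [Module ℚ Vt] [AddCommGroup W]
  [Fintype ι] (D : TD k p gd A Vt W ι)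

/-- complements of hypersurfaces -/
def ae : Filter (Vt × W) := Filter.generate {S | ∃ n, ∃ b ∈ D.G n, b ≠ 0 ∧ S = {z | b z ≠ 0}}

/-- `Filter.mem_generate_iff`, `dom`, induction on the finite family (`1 ∈ G 0`). -/
theorem mem_ae {S : Set (Vt × W)} :
    S ∈ D.ae ↔ ∃ n, ∃ b ∈ D.G n, b ≠ 0 ∧ ∀ z, b z ≠ 0 → z ∈ S := by
  constructor
  · intro h
    induction (h : GenerateSets _ S) with
    | basic h =>
      obtain ⟨n, b, hb, h0, rfl⟩ := h
      exact ⟨n, b, hb, h0, fun _ hz => hz⟩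
    | univ => exact ⟨0, 1, D.one_mem, one_ne_zero, fun _ _ => trivial⟩
    | superset _ h2 ih =>
      obtain ⟨n, b, hb, h0, h3⟩ := ih
      exact ⟨n, b, hb, h0, fun z hz => h2 (h3 z hz)⟩
    | inter _ _ ih ih' =>
      obtain ⟨n, b, hb, h0, h3⟩ := ih
      obtain ⟨m, c, hc, h0', h4⟩ := ih'
      exact ⟨n + m, b * c, D.mul_mem _ _ _ _ hb hc, D.dom hb hc h0 h0', fun z hz =>
        ⟨h3 z (left_ne_zero_of_mul hz), h4 z (right_ne_zero_of_mul hz)⟩⟩
  · rintro ⟨n, b, hb, h0, h⟩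
    exact mem_of_superset (mem_generate_of_mem ⟨n, b, hb, h0, rfl⟩) h

instance ae_neBot : D.ae.NeBot := by
  refine forall_mem_nonempty_iff_neBot.1 fun S hS => ?_
  obtain ⟨n, b, -, h0, h⟩ := D.mem_ae.1 hS
  obtain ⟨z, hz⟩ := Function.ne_iff.1 h0
  exact ⟨z, h z hz⟩

/-- `inj` -/
theorem exists_fst {S : Set (Vt × W)} (hS : S ∈ D.ae) : ∃ x : Vt, (x, (0 : W)) ∈ S := by
  obtain ⟨n, b, hb, h0, h⟩ := D.mem_ae.1 hS
  by_contra hn
  exact h0 (D.inj n b hb fun x => by_contra fun hx => hn ⟨x, h _ hx⟩)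

/-- functions that vanish almost everywhere -/
def nul : Ideal (Vt × W → k) where
  carrier := {f | ∀ᶠ z in D.ae, f z = 0}
  zero_mem' := by
    show ∀ᶠ z in D.ae, (0 : Vt × W → k) z = 0
    exact Eventually.of_forall fun _ => rfl
  add_mem' := fun {f g} hf hg => by
    have hf' : ∀ᶠ z in D.ae, f z = 0 := hf
    have hg' : ∀ᶠ z in D.ae, g z = 0 := hg
    show ∀ᶠ z in D.ae, (f + g) z = 0
    exact (hf'.and hg').mono fun z h => by simp [h.1, h.2]
  smul_mem' := fun c f hf => by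
    have hf' : ∀ᶠ z in D.ae, f z = 0 := hf
    show ∀ᶠ z in D.ae, (c • f) z = 0
    exact hf'.mono fun z h => by simp [h]

theorem mem_nul {f : Vt × W → k} : f ∈ D.nul ↔ ∀ᶠ z in D.ae, f z = 0 := Iff.rfl

/-- germs -/
def FF : Type := (Vt × W → k) ⧸ D.nul

noncomputable instance : CommRing D.FF := inferInstanceAs (CommRing ((Vt × W → k) ⧸ D.nul))

noncomputable instance : Algebra k D.FF := inferInstanceAs (Algebra k ((Vt × W → k) ⧸ D.nul))

/-- the germ of a function -/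
noncomputable def gm : (Vt × W → k) →ₐ[k] D.FF := Ideal.Quotient.mkₐ k D.nul

theorem gm_surj : Function.Surjective D.gm := Ideal.Quotient.mkₐ_surjective k D.nul

theorem gm_eq {f g : Vt × W → k} : D.gm f = D.gm g ↔ ∀ᶠ z in D.ae, f z = g z := by
  refine (Ideal.Quotient.eq (I := D.nul)).trans ?_
  simp only [mem_nul, Pi.sub_apply, sub_eq_zero]

theorem gm_eq_zero {f : Vt × W → k} : D.gm f = 0 ↔ ∀ᶠ z in D.ae, f z = 0 := by
  rw [← map_zero D.gm, gm_eq]
  rfl

instance : Nontrivial D.FF := by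
  refine ⟨D.gm 1, 0, fun h => ?_⟩
  obtain ⟨z, hz⟩ := (D.gm_eq_zero.1 h).exists
  exact one_ne_zero hz

theorem isUnit_gm {f : Vt × W → k} : IsUnit (D.gm f) ↔ ∀ᶠ z in D.ae, f z ≠ 0 := by
  rw [isUnit_iff_exists_inv]
  constructor
  · rintro ⟨G, h⟩
    obtain ⟨g, rfl⟩ := D.gm_surj G
    rw [← map_mul, ← map_one D.gm, gm_eq] at h
    exact h.mono fun z hz => left_ne_zero_of_mul_eq_one hz
  · intro h
    refine ⟨D.gm fun z => (f z)⁻¹, ?_⟩
    rw [← map_mul, ← map_one D.gm, gm_eq]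
    exact h.mono fun z hz => mul_inv_cancel₀ hz

theorem isUnit_gm_G {n : ℕ} {f : Vt × W → k} (hf : f ∈ D.G n) (h0 : f ≠ 0) : IsUnit (D.gm f) := by
  exact D.isUnit_gm.2 (D.mem_ae.2 ⟨n, f, hf, h0, fun _ hz => hz⟩)

theorem isUnit_X0 : IsUnit (D.gm D.X0) := D.isUnit_gm_G D.X0_mem D.X0_ne

theorem gm_inj_G {n : ℕ} {f g : Vt × W → k} (hf : f ∈ D.G n) (hg : g ∈ D.G n)
    (h : D.gm f = D.gm g) : f = g := by
  by_contra hn
  have h1 := D.isUnit_gm_G (sub_mem hf hg) (sub_ne_zero.2 hn)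
  rw [map_sub, h, sub_self] at h1
  exact not_isUnit_zero h1

theorem FF_pow_inj (j : ℕ) {F F' : D.FF} (h : F ^ p ^ j = F' ^ p ^ j) : F = F' := by
  obtain ⟨f, rfl⟩ := D.gm_surj F
  obtain ⟨g, rfl⟩ := D.gm_surj F'
  rw [← map_pow, ← map_pow, gm_eq] at h
  exact D.gm_eq.2 (h.mono fun z hz => iterateFrobenius_inj k p j hz)

/-- ratios of sections -/
noncomputable def Ksub : Subalgebra k D.FF where
  carrier := {F | ∃ n, ∃ f ∈ D.G n, ∃ g ∈ D.G n, g ≠ 0 ∧ F * D.gm g = D.gm f}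
  mul_mem' := by
    rintro F F' ⟨n, f, hf, g, hg, h0, e⟩ ⟨m, f', hf', g', hg', h0', e'⟩
    exact ⟨n + m, f * f', D.mul_mem _ _ _ _ hf hf', g * g', D.mul_mem _ _ _ _ hg hg',
      D.dom hg hg' h0 h0', by rw [map_mul, map_mul, mul_mul_mul_comm, e, e']⟩
  add_mem' := by
    rintro F F' ⟨n, f, hf, g, hg, h0, e⟩ ⟨m, f', hf', g', hg', h0', e'⟩
    refine ⟨n + m, f * g' + g * f', add_mem (D.mul_mem _ _ _ _ hf hg') (D.mul_mem _ _ _ _ hg hf'),
      g * g', D.mul_mem _ _ _ _ hg hg', D.dom hg hg' h0 h0', ?_⟩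
    rw [map_add, map_mul, map_mul, map_mul, ← e, ← e']
    ring
  algebraMap_mem' := fun c => ⟨0, c • 1, Submodule.smul_mem _ c D.one_mem, 1, D.one_mem,
    one_ne_zero, by rw [map_smul, map_one, mul_one, Algebra.algebraMap_eq_smul_one]⟩

theorem isField_Ksub : IsField D.Ksub := by
  refine ⟨⟨0, 1, zero_ne_one⟩, mul_comm, ?_⟩
  rintro ⟨F, n, f, hf, g, hg, h0, e⟩ hF
  have hf0 : f ≠ 0 := by
    rintro rfl
    rw [map_zero, (D.isUnit_gm_G hg h0).mul_left_eq_zero] at e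
    exact hF (Subtype.ext e)
  obtain ⟨u, hu⟩ := (D.isUnit_gm_G hf hf0).exists_left_inv
  refine ⟨⟨D.gm g * u, n, g, hg, f, hf, hf0, by rw [mul_assoc, hu, mul_one]⟩, Subtype.ext ?_⟩
  show F * (D.gm g * u) = 1
  rw [← mul_assoc, e, mul_comm, hu]

/-- the function field -/
def KK : Type := D.Ksub

set_option warn.classDefReducibility false in
/-- the field structure, kept opaque for instance search -/
noncomputable def fieldKK : Field D.KK := D.isField_Ksub.toField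

noncomputable instance : Field D.KK := D.fieldKK

set_option warn.classDefReducibility false in
/-- the algebra structure, kept opaque for instance search -/
noncomputable def algKK : Algebra k D.KK := inferInstanceAs (Algebra k D.Ksub)

noncomputable instance : Algebra k D.KK := D.algKK

/-- the germ of a rational function -/
noncomputable def val : D.KK →ₐ[k] D.FF := D.Ksub.val

theorem val_inj : Function.Injective D.val := Subtype.val_injective

instance : CharP D.KK p := charP_of_injective_algebraMap (algebraMap k D.KK).injective p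

theorem exists_ratio {n : ℕ} {f g : Vt × W → k} (hf : f ∈ D.G n) (hg : g ∈ D.G n) (h0 : g ≠ 0) :
    ∃ c : D.KK, D.val c * D.gm g = D.gm f := by
  obtain ⟨u, hu⟩ := (D.isUnit_gm_G hg h0).exists_left_inv
  have e : D.gm f * u * D.gm g = D.gm f := by rw [mul_assoc, hu, mul_one]
  exact ⟨⟨D.gm f * u, n, f, hf, g, hg, h0, e⟩, e⟩

theorem KK_frac (c : D.KK) :
    ∃ n, ∃ f ∈ D.G n, ∃ g ∈ D.G n, g ≠ 0 ∧ D.val c * D.gm g = D.gm f := c.2

/-- multiply numerator and denominator by a power of `X0` -/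
theorem KK_frac_ge (c : D.KK) : ∃ n0, ∀ n, n0 ≤ n →
    ∃ f ∈ D.G n, ∃ g ∈ D.G n, g ≠ 0 ∧ D.val c * D.gm g = D.gm f := by
  obtain ⟨n0, f, hf, g, hg, h0, e⟩ := D.KK_frac c
  refine ⟨n0, fun n hn => ?_⟩
  induction n, hn using Nat.le_induction with
  | base => exact ⟨f, hf, g, hg, h0, e⟩
  | succ n _ ih =>
    obtain ⟨f, hf, g, hg, h0, e⟩ := ih
    exact ⟨f * D.X0, D.mul_mem _ _ _ _ hf D.X0_mem, g * D.X0, D.mul_mem _ _ _ _ hg D.X0_mem,
      D.dom hg D.X0_mem h0 D.X0_ne, by rw [map_mul, map_mul, ← mul_assoc, e]⟩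

theorem isUnit_val {c : D.KK} (hc : c ≠ 0) : IsUnit (D.val c) := (IsUnit.mk0 c hc).map D.val

/-- dominant maps -/
def IsDom (a : Vt × W → Vt × W) : Prop := Tendsto a D.ae D.ae

/-- maps that send null sets to null sets and are onto almost everything -/
def Quo (a : Vt × W → Vt × W) : Prop := ∀ S, a ⁻¹' S ∈ D.ae → S ∈ D.ae

/-- composition with a map -/
def cmp (a : Vt × W → Vt × W) : (Vt × W → k) →ₐ[k] (Vt × W → k) where
  toFun f := f ∘ a
  map_one' := rfl
  map_mul' _ _ := rfl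
  map_zero' := rfl
  map_add' _ _ := rfl
  commutes' _ := rfl

open Classical in
/-- pull back of germs -/
noncomputable def pull (a : Vt × W → Vt × W) : D.FF →ₐ[k] D.FF :=
  if h : D.IsDom a then
    Ideal.quotientMapₐ D.nul (cmp a) fun f hf =>
      h.eventually (p := fun z => f z = 0) hf
  else AlgHom.id k _

variable {D}

theorem pull_gm {a : Vt × W → Vt × W} (h : D.IsDom a) (f : Vt × W → k) :
    D.pull a (D.gm f) = D.gm (f ∘ a) := by
  exact DFunLike.congr_fun (dif_pos h : D.pull a = _) (D.gm f)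

theorem IsDom.comp {a b : Vt × W → Vt × W} (ha : D.IsDom a) (hb : D.IsDom b) :
    D.IsDom (a ∘ b) := Tendsto.comp ha hb

theorem pull_comp {a b : Vt × W → Vt × W} (ha : D.IsDom a) (hb : D.IsDom b) (F : D.FF) :
    D.pull (a ∘ b) F = D.pull b (D.pull a F) := by
  obtain ⟨f, rfl⟩ := D.gm_surj F
  rw [pull_gm (ha.comp hb), pull_gm ha, pull_gm hb]
  rfl

theorem Quo.comp {a b : Vt × W → Vt × W} (ha : D.Quo a) (hb : D.Quo b) : D.Quo (a ∘ b) :=
  fun S hS => ha S (hb _ hS)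

theorem pull_inj {a : Vt × W → Vt × W} (h : D.IsDom a) (hq : D.Quo a) :
    Function.Injective (D.pull a) := by
  intro F G e
  obtain ⟨f, rfl⟩ := D.gm_surj F
  obtain ⟨g, rfl⟩ := D.gm_surj G
  rw [pull_gm h, pull_gm h, gm_eq] at e
  exact D.gm_eq.2 (hq {z | f z = g z} e)

theorem isDom_iff {a : Vt × W → Vt × W} :
    D.IsDom a ↔ ∀ n, ∀ b ∈ D.G n, b ≠ 0 → IsUnit (D.gm (b ∘ a)) := by
  constructor
  · intro h n b hb h0
    rw [← pull_gm h]
    exact (D.isUnit_gm_G hb h0).map _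
  · intro h S hS
    obtain ⟨n, b, hb, h0, h1⟩ := D.mem_ae.1 hS
    exact (D.isUnit_gm.1 (h n b hb h0)).mono fun z hz => h1 _ hz

variable (D)

theorem isDom_id : D.IsDom id := tendsto_id

theorem pull_id (F : D.FF) : D.pull id F = F := by
  obtain ⟨f, rfl⟩ := D.gm_surj F
  exact pull_gm D.isDom_id f

end TD

end MG.CP
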