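import Pool.Agent.Lib.MP_33b3f9_ag.MG.CP.Grow
import Pool.Agent.Lib.MP_33b3f9_ag.M8.CP.HF

/-!
Lower bound for the degree.
-/

set_option autoImplicit false
set_option linter.unusedSectionVars false

namespace MG.CP

open Polynomial Filter
open M8.CP (hf)

variable {k K : Type} [Field k] [Field K] [Algebra k K]

namespace Grow

variable {p gd : ℕ} {P : ℕ → Submodule k K}

theorem grow2_arith {d r C : ℕ} (hg : 0 < gd)
    (h : ∀ s : ℕ, d ^ gd * (2 ^ s) ^ gd ≤ r * (C + 2 ^ s) ^ gd) : d ^ gd ≤ r := by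
  obtain ⟨g, rfl⟩ : ∃ g, gd = g + 1 := ⟨gd - 1, by omega⟩
  by_contra hlt
  have h1 : r + 1 ≤ d ^ (g + 1) := by omega
  have h2 := h (r * (C + 1) ^ (g + 1))
  have h3 : r * (C + 1) ^ (g + 1) < 2 ^ (r * (C + 1) ^ (g + 1)) := Nat.lt_two_pow_self
  generalize 2 ^ (r * (C + 1) ^ (g + 1)) = m at h2 h3
  have h4 : 1 ≤ m := by omega
  have h5 := grow_bin C 1 h4 g
  rw [one_mul] at h5
  have h6 : r * m ^ (g + 1) + m * m ^ g ≤ r * m ^ (g + 1) + r * (C + 1) ^ (g + 1) * m ^ g :=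
    calc r * m ^ (g + 1) + m * m ^ g = (r + 1) * m ^ (g + 1) := by ring
      _ ≤ d ^ (g + 1) * m ^ (g + 1) := Nat.mul_le_mul_right _ h1
      _ ≤ r * (C + m) ^ (g + 1) := h2
      _ ≤ r * (m ^ (g + 1) + (C + 1) ^ (g + 1) * m ^ g) := Nat.mul_le_mul_left _ h5
      _ = _ := by rw [mul_add, mul_assoc]
  have h7 := Nat.le_of_mul_le_mul_right (Nat.le_of_add_le_add_left h6) (pow_pos h4 g)
  omega

/-- The map `c ↦ φ c * t`. -/
noncomputable def grow2_mp (φ : K →ₐ[k] K) (t : K) : K →ₗ[k] K :=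
  (LinearMap.mulRight k t).comp φ.toLinearMap

theorem grow2_mp_apply (φ : K →ₐ[k] K) (t c : K) : grow2_mp φ t c = φ c * t := rfl

theorem grow2_pow (h : Grow p gd P) (φ : K →ₐ[k] K) (t : K) (n : ℕ) :
    (P 1).map (grow2_mp φ t) ^ n ≤ (P n).map (grow2_mp φ (t ^ n)) := by
  induction n with
  | zero =>
    rw [pow_zero, Submodule.one_le]
    exact ⟨1, h.one0, by simp [grow2_mp_apply]⟩
  | succ n ih =>
    rw [pow_succ, Submodule.mul_le]
    rintro x hx _ ⟨b, hb, rfl⟩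
    obtain ⟨a, ha, rfl⟩ := ih hx
    refine ⟨a * b, h.mul n 1 (Submodule.mul_mem_mul ha hb), ?_⟩
    simp only [grow2_mp_apply, map_mul]
    ring

theorem grow2_coef (φ : K →ₐ[k] K) [FiniteDimensional φ.fieldRange K] :
    ∃ (e : Fin (Module.finrank φ.fieldRange K) → K)
      (f : Fin (Module.finrank φ.fieldRange K) → K →ₗ[k] K), ∀ x, x = ∑ l, φ (f l x) * e l := by
  let e := Module.finBasis φ.fieldRange K
  let ψ : K ≃ₐ[k] φ.fieldRange := AlgEquiv.ofInjectiveField φ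
  refine ⟨e, fun l => ψ.symm.toLinearMap.comp ((e.coord l).restrictScalars k), fun x => ?_⟩
  conv_lhs => rw [← e.sum_repr x]
  refine Finset.sum_congr rfl fun l _ => ?_
  have h1 : φ (ψ.symm (e.repr x l)) = (e.repr x l : K) :=
    congrArg Subtype.val (ψ.apply_symm_apply (e.repr x l))
  change (e.repr x l : K) * e l = φ (ψ.symm (e.repr x l)) * e l
  rw [h1]

theorem grow2_up (h : Grow p gd P) (φ : K →ₐ[k] K) [FiniteDimensional φ.fieldRange K] (t : K)
    (R : Submodule k K) [FiniteDimensional k R] : ∃ c : ℕ, ∀ n, 1 ≤ n → ∃ U : Submodule k K,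
      FiniteDimensional k U ∧ R * (P 1).map (grow2_mp φ t) ^ n ≤ U ∧
        Module.finrank k U ≤ Module.finrank φ.fieldRange K * (4 * (c + n)) ^ gd := by
  obtain ⟨e, f, hef⟩ := grow2_coef φ
  obtain ⟨c, β, -, hβ, hV⟩ := h.denom (⨆ l, R.map (f l))
  refine ⟨c, fun n hn => ?_⟩
  have := h.fin
  let Φ : (Fin (Module.finrank φ.fieldRange K) → P (c + n)) →ₗ[k] K :=
    ∑ l, (grow2_mp φ ((φ β)⁻¹ * t ^ n * e l)).comp
      ((P (c + n)).subtype.comp (LinearMap.proj l))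
  refine ⟨LinearMap.range Φ, inferInstance, ?_, ?_⟩
  · rw [Submodule.mul_le]
    intro x hx y hy
    obtain ⟨b, hb, rfl⟩ := grow2_pow h φ t n hy
    have h1 : ∀ l, β * f l x * b ∈ P (c + n) := fun l => by
      have h2 : β * f l x ∈ P 1 ^ c :=
        hV _ (Submodule.mem_iSup_of_mem l (Submodule.mem_map_of_mem hx))
      have h3 : P 1 ^ c ≤ P c := by simpa using h.pow_le 1 c
      exact h.mul c n (Submodule.mul_mem_mul (h3 h2) hb)
    refine ⟨fun l => ⟨_, h1 l⟩, ?_⟩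
    have h4 : φ β ≠ 0 := (map_ne_zero φ).mpr hβ
    conv_rhs => rw [hef x]
    simp only [Φ, LinearMap.sum_apply, LinearMap.comp_apply, LinearMap.proj_apply,
      Submodule.subtype_apply, grow2_mp_apply, map_mul, Finset.sum_mul]
    refine Finset.sum_congr rfl fun l _ => ?_
    field_simp
  · refine (LinearMap.finrank_range_le Φ).trans ?_
    rw [Module.finrank_pi_fintype, Finset.sum_const, Finset.card_univ, Fintype.card_fin,
      smul_eq_mul]
    exact Nat.mul_le_mul_left _ (h.le _ (by omega))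

/-- `Q = {φ c * t}`. `hf` for `P 1 ^ d` and `Q`: `P 1 ^ (d (N + n)) ≤ (P 1 ^ d ⊔ Q) ^ N * Q ^ n`. Expand a
`k`-basis of `(P 1 ^ d ⊔ Q) ^ N` in a basis `e` of `K` over `φ K`, coefficients `φ (c)`, common
denominator `β` (`denom`): the left side lies in `φ(β)⁻¹ t ^ n ∑ e l * φ (P 1 ^ (n + c0))`, so
`finrank (P 1 ^ (d (N + n))) ≤ r (4 (n + c0)) ^ gd`. Take `n = 2 ^ s / d + 1`; the left side is at least
`(4 * 2 ^ s) ^ gd` (powers of `P 1` increase since `1 ∈ P 1`). -/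
theorem deg_ge (h : Grow p gd P) (φ : K →ₐ[k] K) [FiniteDimensional φ.fieldRange K] (t : K) (d : ℕ)
    (hd : 1 ≤ d) (hv : ∀ O : ValuationSubring K, (∀ e : k, algebraMap k K e ∈ O) →
      ∀ x ∈ P 1 ^ d, ∃ g ∈ P 1, ∃ c ∈ O, x = c * (φ g * t)) :
    d ^ gd ≤ Module.finrank φ.fieldRange K := by
  have hP : ∀ n, P 1 ^ n ≤ P n := fun n => by simpa using h.pow_le 1 n
  have := h.fin
  have : FiniteDimensional k (P 1 ^ d : Submodule k K) := Submodule.finiteDimensional_of_le (hP d)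
  obtain ⟨N, hN⟩ := hf (P 1 ^ d) ((P 1).map (grow2_mp φ t)) fun O hO x hx => by
    obtain ⟨g, hg, c, hc, he⟩ := hv O hO x hx
    exact ⟨φ g * t, ⟨g, hg, rfl⟩, c, hc, he⟩
  have hfg : ((P 1 ^ d ⊔ (P 1).map (grow2_mp φ t)) ^ N).FG :=
    (Submodule.FG.sup (Module.Finite.iff_fg.mp inferInstance)
      ((Module.Finite.iff_fg.mp inferInstance : (P 1).FG).map _)).pow N
  have := Module.Finite.iff_fg.mpr hfg
  obtain ⟨c, hc⟩ := grow2_up h φ t ((P 1 ^ d ⊔ (P 1).map (grow2_mp φ t)) ^ N)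
  refine grow2_arith (C := d * (c + 1)) h.pos fun s => ?_
  obtain ⟨U, hU, hU1, hU2⟩ := hc (2 ^ s / d + 1) (Nat.le_add_left 1 _)
  have h1 : 2 ^ s ≤ d * (N + (2 ^ s / d + 1)) := by
    have h2 := Nat.lt_mul_div_succ (2 ^ s) hd
    nlinarith [Nat.zero_le (d * N)]
  have h3 : P (2 ^ s) ≤ U := by
    rw [← h.pow2]
    refine (pow_le_pow_right' (Submodule.one_le.mpr h.one1) h1).trans ?_
    rw [pow_mul]
    exact ((pow_le_pow_left' le_sup_left _).trans (hN _)).trans hU1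
  have h4 := (Submodule.finrank_mono h3).trans hU2
  rw [h.eq _ fun hp => h.p_odd (h.prime.dvd_of_dvd_pow hp)] at h4
  have h5 : d * (c + (2 ^ s / d + 1)) ≤ d * (c + 1) + 2 ^ s := by
    have h2 := Nat.mul_div_le (2 ^ s) d
    nlinarith
  have h6 : 4 ^ gd * (d ^ gd * (2 ^ s) ^ gd) ≤
      4 ^ gd * (Module.finrank φ.fieldRange K * (d * (c + (2 ^ s / d + 1))) ^ gd) :=
    calc 4 ^ gd * (d ^ gd * (2 ^ s) ^ gd) = d ^ gd * (4 * 2 ^ s) ^ gd := by ring
      _ ≤ d ^ gd * (Module.finrank φ.fieldRange K * (4 * (c + (2 ^ s / d + 1))) ^ gd) :=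
        Nat.mul_le_mul_left _ h4
      _ = _ := by
        rw [mul_pow 4, mul_pow d]
        ring
  exact (Nat.le_of_mul_le_mul_left h6 (by positivity)).trans
    (Nat.mul_le_mul_left _ (Nat.pow_le_pow_left h5 gd))

end Grow

end MG.CP
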