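import Pool.Agent.Lib.MP_33b3f9_ag.MG.CP.Pow2
import Pool.Agent.Lib.MP_33b3f9_ag.MG.CP.Basic2

/-!
Consequences of projective normality.
-/

set_option autoImplicit false
set_option linter.unusedSectionVars false

namespace MG.CP

open Polynomial Filter
open M8.CP (Uop)

namespace TD

variable {k : Type} [Field k] [IsAlgClosed k] {p : ℕ} [Fact p.Prime] [CharP k p] {gd : ℕ}
  {A : Type} [CommRing A] {Vt W ι : Type} [AddCommGroup Vt] [Module ℚ Vt] [AddCommGroup W]
  [Fintype ι] (D : TD k p gd A Vt W ι)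

theorem pow3_ind {P : ℕ → (Vt × W → k) → Prop} (h1 : P 0 1)
    (hX : ∀ m i f, P m f → P (m + 1) (D.X i * f)) (ha : ∀ m f g, P m f → P m g → P m (f + g))
    (hs : ∀ m (c : k) f, P m f → P m (c • f)) {m : ℕ} {f : Vt × W → k} (hf : f ∈ D.G 1 ^ m) :
    P m f := by
  refine Submodule.pow_induction_on_left' (C := fun m f _ => P m f) _ (fun r => ?_)
    (fun x y i _ _ => ha i x y) (fun g hg i x _ hx => ?_) hf
  · rw [Algebra.algebraMap_eq_smul_one]
    exact hs _ _ _ h1
  · rw [D.span] at hg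
    induction hg using Submodule.span_induction with
    | mem _ h =>
      obtain ⟨j, rfl⟩ := h
      exact hX _ _ _ hx
    | zero => simpa using hs _ 0 _ (hX _ (D.bpf 0).choose _ hx)
    | add _ _ _ _ H K =>
      rw [add_mul]
      exact ha _ _ _ H K
    | smul c _ _ H =>
      rw [smul_mul_assoc]
      exact hs _ _ _ H

theorem pow3_one : (1 : Vt × W → k) ∈ D.G 1 ^ 0 := by
  rw [pow_zero]
  exact Submodule.one_le.1 le_rfl

theorem pow3_mul (i : ι) {m : ℕ} {f : Vt × W → k} (hf : f ∈ D.G 1 ^ m) :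
    D.X i * f ∈ D.G 1 ^ (m + 1) := by
  rw [pow_succ']
  exact Submodule.mul_mem_mul (D.X_mem i) hf

/-- First for `f ∈ G 1 ^ m`; then multiply `f` by `X i ^ (2 ^ s - n)` with `X i z ≠ 0`
(`c ≠ 0` by `bpf z'`). -/
theorem prop_of_X {z z' : Vt × W} {c : k} (h : ∀ i, D.X i z' = c * D.X i z) {n : ℕ}
    {f : Vt × W → k} (hf : f ∈ D.G n) : f z' = c ^ n * f z := by
  obtain ⟨i, hi⟩ := D.bpf z'
  obtain ⟨d, hd⟩ := Nat.exists_eq_add_of_le (Nat.lt_two_pow_self (n := n)).le
  have h1 := D.mul_mem _ _ _ _ hf (D.pow_mem (D.X_mem i) d)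
  rw [one_mul, ← hd, ← D.G_pow2] at h1
  have h2 := D.pow3_ind (P := fun m f => f z' = c ^ m * f z) (by simp)
    (fun m i f H => by rw [Pi.mul_apply, Pi.mul_apply, H, h]; ring)
    (fun m f g H K => by rw [Pi.add_apply, Pi.add_apply, H, K, mul_add])
    (fun m a f H => by rw [Pi.smul_apply, Pi.smul_apply, H, mul_smul_comm]) h1
  refine mul_right_cancel₀ (pow_ne_zero d hi) ?_
  rw [Pi.mul_apply, Pi.mul_apply, Pi.pow_apply, Pi.pow_apply, hd] at h2
  rw [h2, h]
  ring

theorem mem_C_iff {y : W} : y ∈ D.C ↔ ∀ i z, D.X i (z + (0, y)) = D.X i z := by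
  refine ⟨fun h i => h 1 _ (D.X_mem i), fun h n f hf z => ?_⟩
  rw [D.prop_of_X (z := z) (c := 1) (fun i => by rw [h, one_mul]) hf, one_pow, one_mul]

/-- equal first components, second components congruent modulo `C` -/
theorem apply_congr {z z' : Vt × W} (h1 : z.1 = z'.1) (h2 : z.2 - z'.2 ∈ D.C) {n : ℕ}
    {f : Vt × W → k} (hf : f ∈ D.G n) : f z = f z' := by
  rw [← h2 n f hf z']
  exact congrArg f (Prod.ext (by simp [h1]) (by simp))

end TD

end MG.CP
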