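import Pool.Agent.Lib.MP_33b3f9_ag.MG.CP.QO

/-!
The exact parallelogram law.
-/

set_option autoImplicit false
set_option linter.unusedSectionVars false

namespace MG.CP

open Polynomial Filter
open M8.CP (Uop IsQuad)

namespace TD

variable {k : Type} [Field k] [IsAlgClosed k] {p : ℕ} [Fact p.Prime] [CharP k p] {gd : ℕ}
  {A : Type} [CommRing A] {Vt W ι : Type} [AddCommGroup Vt] [Module ℚ Vt] [AddCommGroup W]
  [Fintype ι] (D : TD k p gd A Vt W ι)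

variable {D} {O : ValuationSubring D.KK} {a b : Vt × W → Vt × W}

/-- a valuation ring over the constants, as a subalgebra -/
def qo2Sub (hO : D.Over O) : Subalgebra k D.KK :=
  { O.toSubring.toSubsemiring with algebraMap_mem' := hO }

theorem qo2_dup (hO : D.Over O) {s t : D.FFˣ} (h : D.IsFr O a s) (ht : D.IsFr O (a + a) t) :
    ∃ e ∈ O, (s : D.FF) ^ 4 = D.val e * t := by
  obtain ⟨i, c, hc, hi⟩ := h.2
  obtain ⟨e, he, h1⟩ := dup_gm (qo2Sub hO) ht.1 i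
  refine ⟨c ^ 4 * e, O.mul_mem _ _ (_root_.pow_mem hc 4) he, ?_⟩
  rw [hi, mul_pow, h1, map_mul, map_pow, mul_assoc]

/-- frames `sp`, `sm` of `a ± b`: `sp * sm = val e * (s ^ 2 * s' ^ 2)` with `e ∈ O` (`law_gm` for `O`
as a subalgebra) -/
theorem fr_le (hO : D.Over O) {s s' sp sm : D.FFˣ} (h : D.IsFr O a s) (h' : D.IsFr O b s')
    (hp : D.IsFr O (a + b) sp) (hm : D.IsFr O (a - b) sm) :
    ∃ e ∈ O, (sp : D.FF) * sm = D.val e * (s ^ 2 * s' ^ 2) := by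
  obtain ⟨i, c, hc, hi⟩ := hp.2
  obtain ⟨j, c', hc', hj⟩ := hm.2
  obtain ⟨e, he, h1⟩ := law_gm (qo2Sub hO) h.1 h'.1 i j
  refine ⟨c * c' * e, O.mul_mem _ _ (O.mul_mem _ _ hc hc') he, ?_⟩
  rw [hi, hj, map_mul, map_mul, mul_assoc _ (D.val e), ← h1]
  ring

/-- `fr_le` for `(a, b)` with `e`, for `(a + b, a - b)` with `e'` (`(a + b) + (a - b) = a + a`,
`(a + b) - (a - b) = b + b`), `dup_gm` twice with `e1, e2`: `e1 e2 e' e ^ 2 = 1`, so `e⁻¹ ∈ O`. -/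
theorem isQuad (hO : D.Over O) : IsQuad fun a : D.AA => D.qO O a := by
  refine ⟨qO_const hO 0, ?_⟩
  rintro ⟨a, ha⟩ ⟨b, hb⟩
  change D.qO O (a + b) * D.qO O (a - b) = D.qO O a ^ 2 * D.qO O b ^ 2
  have ha' : D.InA a := ha
  have hb' : D.InA b := hb
  obtain ⟨s, hs⟩ := ha'.exists_fr O
  obtain ⟨s', hs'⟩ := hb'.exists_fr O
  obtain ⟨sp, hp⟩ := (ha'.add_sub hb').1.exists_fr O
  obtain ⟨sm, hm⟩ := (ha'.add_sub hb').2.exists_fr O
  obtain ⟨t, ht⟩ := (ha'.add_sub ha').1.exists_fr O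
  obtain ⟨t', ht'⟩ := (hb'.add_sub hb').1.exists_fr O
  obtain ⟨e, he, h1⟩ := fr_le hO hs hs' hp hm
  obtain ⟨e', he', h2⟩ := fr_le hO hp hm (sp := t) (sm := t')
    (by rwa [show a + b + (a - b) = a + a by abel]) (by rwa [show a + b - (a - b) = b + b by abel])
  obtain ⟨e1, he1, h3⟩ := qo2_dup hO hs ht
  obtain ⟨e2, he2, h4⟩ := qo2_dup hO hs' ht'
  have h5 : e1 * e2 * e' * e * e = 1 := by
    apply D.val_inj
    have hu : IsUnit ((s : D.FF) ^ 4 * s' ^ 4) := (s.isUnit.pow 4).mul (s'.isUnit.pow 4)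
    apply hu.mul_right_cancel
    rw [map_one, one_mul]
    simp only [map_mul]
    calc D.val e1 * D.val e2 * D.val e' * D.val e * D.val e * ((s : D.FF) ^ 4 * s' ^ 4)
        = D.val e1 * D.val e2 * (D.val e' * (D.val e * ((s : D.FF) ^ 2 * s' ^ 2)) ^ 2) := by ring
      _ = D.val e1 * D.val e2 * (t * t') := by rw [← h1, mul_pow, ← h2]
      _ = (s : D.FF) ^ 4 * s' ^ 4 := by rw [h3, h4]; ring
  have h6 : e⁻¹ = e1 * e2 * e' * e := inv_eq_of_mul_eq_one_left h5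
  rw [hs.qO_eq, hs'.qO_eq, hp.qO_eq, hm.qO_eq, ← QuotientGroup.mk_mul, ← QuotientGroup.mk_pow,
    ← QuotientGroup.mk_pow, ← QuotientGroup.mk_mul, mk_eq_iff]
  refine ⟨e, he, ?_, right_ne_zero_of_mul_eq_one h5, by simpa using h1⟩
  rw [h6]
  exact O.mul_mem _ _ (O.mul_mem _ _ (O.mul_mem _ _ he1 he2) he') he

/-- `O`-frames `s`, `s'`; `s = val c * s' ^ d` from the first hypothesis, `c ^ N` is a unit of `O`, so
`c` is one (`mem_or_inv_mem`, `c⁻¹ = c ^ (N - 1) * (c ^ N)⁻¹`). -/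
theorem qO_of_pow (ha : D.InA a) (hb : D.InA b) {d N : ℕ} (hN : N ≠ 0)
    (h1 : D.qO ⊤ a = D.qO ⊤ b ^ d) (h2 : D.qO O a ^ N = (D.qO O b ^ d) ^ N) :
    D.qO O a = D.qO O b ^ d := by
  obtain ⟨s, hs⟩ := ha.exists_fr O
  obtain ⟨s', hs'⟩ := hb.exists_fr O
  rw [hs.top.qO_eq, hs'.top.qO_eq, ← QuotientGroup.mk_pow, mk_eq_iff] at h1
  rw [hs.qO_eq, hs'.qO_eq, ← QuotientGroup.mk_pow] at h2 ⊢
  rw [← QuotientGroup.mk_pow, ← QuotientGroup.mk_pow, mk_eq_iff] at h2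
  obtain ⟨c, -, -, hc0, hc⟩ := h1
  obtain ⟨u, hu, hu', -, hu2⟩ := h2
  have h3 : c ^ N = u := by
    apply D.val_inj
    apply ((s' ^ d) ^ N).isUnit.mul_right_cancel
    rw [← hu2, Units.val_pow_eq_pow_val s N, hc, mul_pow, map_pow, Units.val_pow_eq_pow_val _ N]
  have h4 : ∀ x : D.KK, x ^ N ∈ O → x ∈ O := fun x hx => by
    rw [← O.valuation_le_one_iff] at hx ⊢
    rw [map_pow] at hx
    exact (pow_le_one_iff hN).1 hx
  exact mk_eq_iff.2 ⟨c, h4 c (h3 ▸ hu), h4 c⁻¹ (by rw [inv_pow, h3]; exact hu'), hc0, hc⟩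

theorem qO_nm (hO : D.Over O) (c : ℕ) :
    D.qO O (nm c : Vt × W → Vt × W) = D.qO O id ^ c ^ 2 :=
  (isQuad hO).nsmul c ⟨id, D.inA_id⟩

/-- `qO O ∘ pol` -/
theorem isQuad_pol (hO : D.Over O) : IsQuad fun δ : A[X] => D.qO O (D.pol δ) := by
  refine ⟨?_, fun a b => ?_⟩
  · change D.qO O (D.pol 0) = 1
    rw [pol_zero]
    exact qO_const hO 0
  · change D.qO O (D.pol (a + b)) * D.qO O (D.pol (a - b)) = _
    rw [pol_add, pol_sub]
    exact (isQuad hO).par ⟨_, D.inA_pol a⟩ ⟨_, D.inA_pol b⟩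

/-- sections of level `n` at an `O`-frame -/
theorem IsFr.line (hO : D.Over O) {s : D.FFˣ} (h : D.IsFr O a s) {n : ℕ} {f : Vt × W → k}
    (hf : f ∈ D.G n) : ∃ c ∈ O, D.gm (f ∘ a) = D.val c * s ^ n := by
  obtain ⟨i, c, hc, hi⟩ := h.2
  obtain ⟨d, hd⟩ := Nat.exists_eq_add_of_le (Nat.lt_two_pow_self (n := n)).le
  have h1 : f * D.X i ^ d ∈ D.G 1 ^ 2 ^ n := by
    have h2 := D.mul_mem _ _ _ _ hf (D.pow_mem (D.X_mem i) d)
    rwa [one_mul, ← hd, ← D.G_pow2] at h2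
  obtain ⟨e, he, h2⟩ := aa_line (qo2Sub hO) h.1 h1
  have h3 : (f * D.X i ^ d) ∘ a = (f ∘ a) * (D.X i ∘ a) ^ d := rfl
  rw [h3, map_mul, map_pow, hd] at h2
  refine ⟨c ^ d * e, O.mul_mem _ _ (_root_.pow_mem hc d) he, (s.isUnit.pow d).mul_right_cancel ?_⟩
  conv_lhs => rw [hi, mul_pow, mul_left_comm, h2]
  rw [map_mul, map_pow]
  ring

theorem fr_gen (hO : D.Over O) {z : A} (hz : z = D.za ∨ z = D.bar D.za) {s s' : D.FFˣ}
    (h : D.IsFr O a s) (h' : D.IsFr O (D.pol (Polynomial.C z) ∘ a) s') :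
    ∃ u ∈ O, (s' : D.FF) = D.val u * s ^ D.ma := by
  obtain ⟨j, c, hc, hj⟩ := h'.2
  have h1 := D.pol_end hz (D.X_mem j)
  rw [one_mul] at h1
  obtain ⟨e, he, h2⟩ := h.line hO h1
  exact ⟨c * e, O.mul_mem _ _ hc he, by rw [hj, map_mul, mul_assoc, ← h2]; rfl⟩

/-- The generators are similitudes for the local heights. -/
theorem qO_gen (hO : D.Over O) {z : A} (hz : z = D.za ∨ z = D.bar D.za) (ha : D.InA a) :
    D.qO O (D.pol (Polynomial.C z) ∘ a) = D.qO O a ^ D.ma := by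
  obtain ⟨s, hs⟩ := ha.exists_fr O
  obtain ⟨s', hs'⟩ := (ha.gen hz).exists_fr O
  obtain ⟨s'', hs''⟩ := ((ha.gen hz).gen (D.bar_gen hz)).exists_fr O
  obtain ⟨u, hu, h1⟩ := fr_gen hO hz hs hs'
  obtain ⟨u', hu', h2⟩ := fr_gen hO (D.bar_gen hz) hs' hs''
  have h3 : D.pol (Polynomial.C (D.bar z)) ∘ D.pol (Polynomial.C z) ∘ a = D.ma • a := by
    funext w
    have h4 := D.pol_bar (D.bar_gen hz) (a w)
    rw [D.bar_bar] at h4
    exact h4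
  have h4 : D.qO O (D.ma • a) = D.qO O a ^ D.ma ^ 2 := (isQuad hO).nsmul D.ma ⟨a, ha⟩
  rw [← h3, hs''.qO_eq, hs.qO_eq, ← QuotientGroup.mk_pow, mk_eq_iff] at h4
  obtain ⟨w, -, hw, hw0, h5⟩ := h4
  obtain ⟨m, hm⟩ := Nat.exists_eq_succ_of_ne_zero D.ma_ne
  have h6 : u' * u ^ m * w⁻¹ * u = 1 := by
    have h7 : u' * u ^ D.ma = w := by
      apply D.val_inj
      apply (s ^ D.ma ^ 2).isUnit.mul_right_cancel
      rw [← h5, h2, h1, map_mul, map_pow, Units.val_pow_eq_pow_val]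
      ring
    rw [mul_right_comm, mul_assoc u', ← pow_succ, ← Nat.succ_eq_add_one, ← hm, h7,
      mul_inv_cancel₀ hw0]
  rw [hs'.qO_eq, hs.qO_eq, ← QuotientGroup.mk_pow, mk_eq_iff]
  refine ⟨u, hu, ?_, right_ne_zero_of_mul_eq_one h6, by rw [h1, Units.val_pow_eq_pow_val]⟩
  rw [inv_eq_of_mul_eq_one_left h6]
  exact O.mul_mem _ _ (O.mul_mem _ _ hu' (_root_.pow_mem hu m)) hw

end TD

end MG.CP
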