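import Pool.Agent.Lib.MP_33b3f9_ag.MG.CP.Sep
import Pool.Agent.Lib.MP_33b3f9_ag.MG.CP.QO2

/-!
Similitudes.
-/

set_option autoImplicit false
set_option linter.unusedSectionVars false

namespace MG.CP

open Polynomial Filter
open M8.CP (Uop)

namespace TD

variable {k : Type} [Field k] [IsAlgClosed k] {p : ℕ} [Fact p.Prime] [CharP k p] {gd : ℕ}
  {A : Type} [CommRing A] {Vt W ι : Type} [AddCommGroup Vt] [Module ℚ Vt] [AddCommGroup W]
  [Fintype ι] (D : TD k p gd A Vt W ι)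

theorem sim_zero (x : Vt) : D.polV (Polynomial.X ^ 0) x = x := by
  rw [pow_zero, map_one]
  rfl

theorem sim_succ (m : ℕ) (x : Vt) :
    D.polV (Polynomial.X ^ (m + 1)) x = D.sV (D.polV (Polynomial.X ^ m) x) := by
  rw [pow_succ', polV_mul, polV_X]

theorem sim_eps (m : ℕ) (x y : Vt) :
    D.eps (D.polV (Polynomial.X ^ m) x) (D.polV (Polynomial.X ^ m) y) = D.eps x y ^ p ^ m := by
  induction m with
  | zero => rw [sim_zero, sim_zero, pow_zero, pow_one]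
  | succ m ih => rw [sim_succ, sim_succ, D.eps_s, ih, ← pow_mul, pow_succ]

theorem sim_lam (m : ℕ) (x : Vt) : D.polV (Polynomial.X ^ m) x ∈ D.Lam ↔ x ∈ D.Lam := by
  induction m with
  | zero => rw [sim_zero]
  | succ m ih => rw [sim_succ, D.sV_lam, ih]

theorem sim_surj (m : ℕ) (x : Vt) : ∃ y, D.polV (Polynomial.X ^ m) y = x := by
  induction m generalizing x with
  | zero => exact ⟨x, D.sim_zero x⟩
  | succ m ih =>
    obtain ⟨y, hy⟩ := ih (D.sV.symm x)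
    exact ⟨y, by rw [sim_succ, hy, AddEquiv.apply_symm_apply]⟩

theorem polV_comm (a b : A[X]) (x : Vt) : D.polV a (D.polV b x) = D.polV b (D.polV a x) := by
  rw [← polV_mul, mul_comm, polV_mul]

/-- A similitude times its adjoint is a multiple of a power of the Frobenius. -/
theorem sim_nrm (hs : ∀ x : Vt, (∀ c : ℚ, c • x ∈ D.Lam) → x = 0) {γ γ' : A[X]} {N d : ℕ}
    (h1 : ∀ x y, D.eps (D.polV γ x) (D.polV (Polynomial.X ^ N) y) = D.eps x (D.polV γ' y))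
    (h2 : ∀ x y, D.eps (D.polV γ x) (D.polV γ y) = D.eps x y ^ d) :
    D.polV (γ * γ' - d • Polynomial.X ^ N) = 0 := by
  have key : ∀ y, D.polV (γ * γ' - d • Polynomial.X ^ N) y ∈ D.Lam := fun y => by
    refine D.perf _ fun l _ => ?_
    obtain ⟨x, rfl⟩ := D.sim_surj N l
    have h3 := h1 (D.polV (Polynomial.X ^ N) x) (D.polV γ y)
    rw [D.polV_comm γ, sim_eps, h2, ← pow_mul, mul_comm d, pow_mul, ← sim_eps,
      ← D.eps_nsmul_right, ← polV_mul, mul_comm γ'] at h3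
    have h4 := D.eps_add_right (D.polV (Polynomial.X ^ N) x)
      (D.polV (γ * γ' - d • Polynomial.X ^ N) y) (d • D.polV (Polynomial.X ^ N) y)
    rw [← LinearMap.smul_apply, ← map_nsmul, ← LinearMap.add_apply, ← map_add, sub_add_cancel,
      ← h3, map_nsmul, LinearMap.smul_apply, right_eq_mul₀ (D.eps_ne_zero _ _)] at h4
    have h5 := D.eps_swap (D.polV (Polynomial.X ^ N) x) (D.polV (γ * γ' - d • Polynomial.X ^ N) y)
    rw [h4, one_mul] at h5
    rw [h5, one_pow]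
  exact LinearMap.ext fun y => hs _ fun c => by
    rw [← D.polV_qsmul]
    exact key _

/-- the hypotheses of the main theorem -/
structure Hyp (δ : A[X]) (d : ℕ) : Prop where
  cop : ¬ p ∣ d
  sim : ∀ x y, D.eps (D.polV δ x) (D.polV δ y) = D.eps x y ^ d
  nrm : ∃ (δ' : A[X]) (N : ℕ), D.polV (δ * δ' - d • Polynomial.X ^ N) = 0
  cls : ∃ M : ℕ, ¬ p ∣ M ∧ ∀ O, D.Over O → D.qO O (D.pol δ) ^ M = (D.qO O id ^ d) ^ M

variable {D} {δ : A[X]} {d : ℕ}

/-- `x' = d⁻¹ • polV δ' x''` with `polV (X ^ m) x'' = x` (`sV_lam`) -/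
theorem Hyp.exists_pre (h : D.Hyp δ d) {N : ℕ} {x : Vt} (hx : N • x ∈ D.Lam) :
    ∃ x', D.polV δ x' = x ∧ (N * d) • x' ∈ D.Lam := by
  obtain ⟨δ', m, hm⟩ := h.nrm
  obtain ⟨y, rfl⟩ := D.sim_surj m x
  have hd : (d : ℚ) ≠ 0 := Nat.cast_ne_zero.2 fun e => h.cop (e ▸ dvd_zero p)
  refine ⟨(d : ℚ)⁻¹ • D.polV δ' y, ?_, ?_⟩
  · rw [map_sub, sub_eq_zero] at hm
    rw [D.polV_qsmul, ← polV_mul, hm, map_nsmul, LinearMap.smul_apply,
      ← Nat.cast_smul_eq_nsmul ℚ, inv_smul_smul₀ hd]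
  · rw [mul_smul, ← Nat.cast_smul_eq_nsmul ℚ d, smul_inv_smul₀ hd, ← map_nsmul]
    apply D.polV_lam
    rwa [← map_nsmul, sim_lam] at hx

theorem Hyp.good (h : D.Hyp δ d) : D.Good (D.pol δ) :=
  D.good_pol fun x => by
    obtain ⟨N, -, hx⟩ := D.lam_tors x
    exact (h.exists_pre hx).imp fun _ h => h.1

theorem pol_add_vt (δ : A[X]) (z : Vt × W) (x : Vt) :
    D.pol δ (z + (x, 0)) = D.pol δ z + (D.polV δ x, 0) := by
  rw [D.pol_map_add, D.pol_vt]

theorem Hyp.U_comp (h : D.Hyp δ d) (n : ℕ) (f : Vt × W → k) (x : Vt) :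
    Uop D.eps n (D.polV δ x, 0) f ∘ D.pol δ = Uop D.eps (n * d) (x, 0) (f ∘ D.pol δ) := by
  funext z
  simp only [Function.comp, Uop]
  rw [pol_add_vt, show (D.pol δ z).1 = D.polV δ z.1 from rfl, h.sim, ← pow_mul]
  congr 2
  ring

end TD

end MG.CP
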